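import Pool.Agent.NH3.FK.Joint2

/-!
# Products of primes from arbitrary sparse sets: a general hypothesis on the bilinear sums, any number of
# kinds
-/

set_option autoImplicit false
set_option linter.unusedSectionVars false
set_option linter.unusedVariables false

open scoped Classical

namespace Pool.Agent.NH3.FK.G

open Finset Filter Topology
open Pool.Agent.V11291.FK
open Pool.Agent.NH3.FK (Wt)

section abs

variable {ι : Type} [Fintype ι] [LinearOrder ι]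

/-- the law in a box, for a hypothesis `H` on the bilinear sums -/
def BoxH (H : (ι → Finset ℕ) → (ι → ℕ) → ℝ → Prop) (B₀ : ℕ → Prop) (cl : ℕ → ℕ) (τ : ι → ℕ)
    (G : Finset ℕ → Prop) (α : ℝ) : Prop :=
  ∃ M : ℝ, 0 ≤ M ∧ ∀ (C : ι → Finset ℕ) (Xf : ι → ℕ) (κ : ℝ), 0 ≤ κ →
      (∀ i, (C i).card ≤ Xf i) → H C Xf κ → (∀ i, ∀ p ∈ C i, B₀ p ∧ cl p = τ i) →
      (∀ i l, i ≠ l → Disjoint (C i) (C l)) →
      |(((Fintype.piFinset C).filter fun p => G (univ.image p)).card : ℝ) -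
        α * ((Fintype.piFinset C).card : ℝ)| ≤ M * (κ * ∏ j, (Xf j : ℝ))

/-- the bilinear sums over sparse sets -/
def BilH (H : (ι → Finset ℕ) → (ι → ℕ) → ℝ → Prop) (B₀ : ℕ → Prop) (cl : ℕ → ℕ) (τ : ι → ℕ)
    (θ δ : ℝ) : Prop :=
  ∃ K : ℝ, 0 ≤ K ∧ ∀ (X : ℕ) (Xf : ι → ℕ) (C : ι → Finset ℕ), 1 ≤ X →
    (∀ i, (X : ℝ) ^ θ ≤ (Xf i : ℝ)) → (∀ i, (C i).card ≤ Xf i) →
    (∀ i, ∀ p ∈ C i, p ≤ X ∧ B₀ p ∧ cl p = τ i) → (∀ i l, i ≠ l → Disjoint (C i) (C l)) →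
    H C Xf (K * (X : ℝ) ^ (-δ))

/-- **The law for the tuples.** -/
theorem tup_gen {H : (ι → Finset ℕ) → (ι → ℕ) → ℝ → Prop} {B₀ : ℕ → Prop} {cl : ℕ → ℕ} {τ : ι → ℕ}
    {G : Finset ℕ → Prop} {α θ δ : ℝ} (h0 : 0 ≤ α) (h1 : α ≤ 1)
    (hBox : BoxH H B₀ cl τ G α) (hBil : BilH H B₀ cl τ θ δ) (hι : 0 < Fintype.card ι)
    (hθ : 0 < θ) (hδ : 0 ≤ δ) :
    ∃ C : ℝ, 0 < C ∧ ∀ (S : Finset ℕ) (X : ℕ), 1 ≤ X → (∀ p ∈ S, p ≤ X ∧ B₀ p) →
      (∀ i, (X : ℝ) ^ θ ≤ ((S.filter fun q => cl q = τ i).card : ℝ)) →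
      |(((Tq cl S τ).filter fun p => G (univ.image p)).card : ℝ) - α * ((Tq cl S τ).card : ℝ)| ≤
      C * (X : ℝ) ^ (-δ) * ((Tq cl S τ).card : ℝ) := by
  obtain ⟨M, hM, hbox⟩ := hBox
  obtain ⟨K₁, hK₁, hbil⟩ := hBil
  set n := Fintype.card ι with hn
  set C₀ : ℝ := (n : ℝ) ^ n * (M * K₁) with hC₀
  have hC₀0 : 0 ≤ C₀ := by positivity
  set K : ℝ := 2 * (n : ℝ) ^ 2 + 2 with hK
  have hK1 : 1 ≤ K := by
    have : (0 : ℝ) ≤ (n : ℝ) ^ 2 := by positivity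
    linarith
  have hK0 : 0 < K := by linarith
  refine ⟨2 * C₀ + (K ^ (1 / θ)) ^ δ, by positivity, fun S X hX hS hbig => ?_⟩
  have hX0 : (0 : ℝ) < X := by exact_mod_cast hX
  have hX1 : (1 : ℝ) ≤ X := by exact_mod_cast hX
  have hT0 : (0 : ℝ) ≤ ((Tq cl S τ).card : ℝ) := by positivity
  have hx0 : (0 : ℝ) < (X : ℝ) ^ (-δ) := by positivity
  rcases le_or_gt K ((X : ℝ) ^ θ) with hKX | hKX
  · set κ : ℝ := K₁ * (X : ℝ) ^ (-δ) with hκ
    have hκ0 : 0 ≤ κ := by positivity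
    set Xf : ι → ℕ := fun i => (S.filter fun q => cl q = τ i).card with hXf
    have hTp : ((Tp cl S τ).card : ℝ) = ∏ i, (Xf i : ℝ) := by
      unfold Tp
      rw [Fintype.card_piFinset]
      push_cast
      rfl
    have hone : ∀ φ : S → ι,
        |(((Fintype.piFinset (Cc cl τ φ)).filter fun p => G (univ.image p)).card : ℝ) -
          α * ((Fintype.piFinset (Cc cl τ φ)).card : ℝ)| ≤ M * (κ * ∏ i, (Xf i : ℝ)) := by
      intro φ
      have hmem : ∀ i, ∀ q ∈ Cc cl τ φ i, q ∈ S ∧ cl q = τ i ∧ Hc φ q i := by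
        intro i q hq
        unfold Cc at hq
        rwa [Finset.mem_filter] at hq
      have hdis : ∀ i l, i ≠ l → Disjoint (Cc cl τ φ i) (Cc cl τ φ l) := by
        intro i l hil
        rw [Finset.disjoint_left]
        intro q hq hq'
        obtain ⟨_, h1⟩ := (hmem i q hq).2.2
        obtain ⟨_, h2⟩ := (hmem l q hq').2.2
        exact hil (h1.symm.trans h2)
      have hcard : ∀ i, (Cc cl τ φ i).card ≤ Xf i := by
        intro i
        refine Finset.card_le_card fun q hq => ?_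
        obtain ⟨h1, h2, -⟩ := hmem i q hq
        exact Finset.mem_filter.2 ⟨h1, h2⟩
      exact hbox (Cc cl τ φ) Xf κ hκ0 hcard
        (hbil X Xf (Cc cl τ φ) hX hbig hcard (fun i p hp =>
          ⟨(hS p (hmem i p hp).1).1, (hS p (hmem i p hp).1).2, (hmem i p hp).2.1⟩) hdis)
        (fun i q hq => ⟨(hS q (hmem i q hq).1).2, (hmem i q hq).2.1⟩) hdis
    have h2 := tup_col (fun p => G (univ.image p)) hι hone
    have h3 : ((Tp cl S τ).card : ℝ) ≤ 2 * ((Tq cl S τ).card : ℝ) := by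
      have h3 : ∀ i, 2 * Fintype.card ι ^ 2 + 1 ≤ (S.filter fun q => cl q = τ i).card := by
        intro i
        have h4 : K ≤ ((S.filter fun q => cl q = τ i).card : ℝ) := hKX.trans (hbig i)
        have h5 : ((2 * Fintype.card ι ^ 2 + 1 : ℕ) : ℝ) ≤
            ((S.filter fun q => cl q = τ i).card : ℝ) := by
          push_cast
          linarith
        exact_mod_cast h5
      exact_mod_cast Tq_low h3 (by omega) (by omega)
    refine h2.trans ?_
    have h4 : (n : ℝ) ^ n * (M * (κ * ∏ i, (Xf i : ℝ))) =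
        C₀ * (X : ℝ) ^ (-δ) * ((Tp cl S τ).card : ℝ) := by
      rw [hTp, hκ, hC₀]
      ring
    rw [← hn, h4]
    have h5 : C₀ * (X : ℝ) ^ (-δ) * ((Tp cl S τ).card : ℝ) ≤
        C₀ * (X : ℝ) ^ (-δ) * (2 * ((Tq cl S τ).card : ℝ)) :=
      mul_le_mul_of_nonneg_left h3 (by positivity)
    have h6 : 0 ≤ (K ^ (1 / θ)) ^ δ * (X : ℝ) ^ (-δ) * ((Tq cl S τ).card : ℝ) := by
      positivity
    nlinarith
  · have h2 : |(((Tq cl S τ).filter fun p => G (univ.image p)).card : ℝ) -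
        α * ((Tq cl S τ).card : ℝ)| ≤ ((Tq cl S τ).card : ℝ) := by
      have a1 : (((Tq cl S τ).filter fun p => G (univ.image p)).card : ℝ) ≤
          ((Tq cl S τ).card : ℝ) := by
        exact_mod_cast Finset.card_filter_le _ _
      have a2 : (0 : ℝ) ≤ (((Tq cl S τ).filter fun p => G (univ.image p)).card : ℝ) := by
        positivity
      rw [abs_le]
      constructor
      · nlinarith
      · nlinarith
    refine h2.trans ?_
    have h2 : (1 : ℝ) ≤ (K ^ (1 / θ)) ^ δ * (X : ℝ) ^ (-δ) := by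
      have h3 : (X : ℝ) ≤ K ^ (1 / θ) := by
        have h4 : ((X : ℝ) ^ θ) ^ (1 / θ) ≤ K ^ (1 / θ) :=
          Real.rpow_le_rpow (by positivity) hKX.le (by positivity)
        rw [← Real.rpow_mul hX0.le, mul_one_div_cancel hθ.ne', Real.rpow_one] at h4
        exact h4
      have h4 : (X : ℝ) ^ δ ≤ (K ^ (1 / θ)) ^ δ := Real.rpow_le_rpow hX0.le h3 hδ
      have h5 : (X : ℝ) ^ δ * (X : ℝ) ^ (-δ) = 1 := by
        rw [← Real.rpow_add hX0]
        simp
      calc (1 : ℝ) = (X : ℝ) ^ δ * (X : ℝ) ^ (-δ) := h5.symm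
        _ ≤ _ := mul_le_mul_of_nonneg_right h4 hx0.le
    have h6 : 0 ≤ 2 * C₀ * (X : ℝ) ^ (-δ) * ((Tq cl S τ).card : ℝ) := by positivity
    nlinarith

/-- **The law for the sets.** -/
theorem set_gen {H : (ι → Finset ℕ) → (ι → ℕ) → ℝ → Prop} {B₀ : ℕ → Prop} {cl : ℕ → ℕ} {τ : ι → ℕ}
    {G : Finset ℕ → Prop} {α θ δ : ℝ} (h0 : 0 ≤ α) (h1 : α ≤ 1) (hB : ∀ p, B₀ p → p.Prime)
    (hBox : BoxH H B₀ cl τ G α) (hBil : BilH H B₀ cl τ θ δ) (hι : 0 < Fintype.card ι)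
    (hθ : 0 < θ) (hδ : 0 ≤ δ) :
    ∃ C : ℝ, 0 < C ∧ ∀ (A : Finset ℕ) (X : ℕ), 1 ≤ X → (∀ p ∈ A, p ≤ X) →
      (∀ i, (X : ℝ) ^ θ ≤ ((A.filter fun q => B₀ q ∧ cl q = τ i).card : ℝ)) →
      |(((FW (fun p => p ∈ A ∧ B₀ p) cl τ Wt (X ^ Fintype.card ι)).filter G).card : ℝ) -
        α * ((FW (fun p => p ∈ A ∧ B₀ p) cl τ Wt (X ^ Fintype.card ι)).card : ℝ)| ≤
      C * (X : ℝ) ^ (-δ) *
        ((FW (fun p => p ∈ A ∧ B₀ p) cl τ Wt (X ^ Fintype.card ι)).card : ℝ) := by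
  obtain ⟨C, hC, h⟩ := tup_gen h0 h1 hBox hBil hι hθ hδ
  refine ⟨C, hC, fun A X hX hA hbig => ?_⟩
  have hB' : ∀ p, p ∈ A ∧ B₀ p → p.Prime := fun p hp => hB p hp.2
  have h2 := h (A.filter B₀) X hX (fun p hp => by
    rw [Finset.mem_filter] at hp
    exact ⟨hA p hp.1, hp.2⟩) (fun i => by
    rw [Finset.filter_filter]
    exact hbig i)
  have hTq : TW (fun p => p ∈ A ∧ B₀ p) cl τ Wt (X ^ Fintype.card ι) =
      Tq cl (A.filter B₀) τ := by
    ext p
    rw [mem_TW hB', mem_Tq]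
    constructor
    · rintro ⟨⟨h3, h4, -⟩, -⟩
      exact ⟨fun i => ⟨Finset.mem_filter.2 (h3 i).1, (h3 i).2⟩, h4⟩
    · rintro ⟨h3, h4⟩
      refine ⟨⟨fun i => ⟨Finset.mem_filter.1 (h3 i).1, (h3 i).2⟩, h4, ?_⟩, trivial⟩
      have h5 : ∏ i, p i ≤ ∏ _i : ι, X := Finset.prod_le_prod' fun i _ =>
        hA _ (Finset.mem_filter.1 (h3 i).1).1
      rw [Finset.prod_const, Finset.card_univ] at h5
      exact h5
  rw [← hTq] at h2
  obtain ⟨m, hm, hcc⟩ := card_propG (τ := τ) (cl := cl) hB' Wt (X ^ Fintype.card ι)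
  have e1 := hcc G
  have e2 := hcc fun _ => True
  rw [Finset.filter_true, Finset.filter_true] at e2
  rw [e1, e2] at h2
  have hm1 : (0 : ℝ) < m := by exact_mod_cast hm
  push_cast at h2
  refine le_of_mul_le_mul_left ?_ hm1
  have e3 : (m : ℝ) * (((FW (fun p => p ∈ A ∧ B₀ p) cl τ Wt
      (X ^ Fintype.card ι)).filter G).card : ℝ) -
      α * ((m : ℝ) * ((FW (fun p => p ∈ A ∧ B₀ p) cl τ Wt (X ^ Fintype.card ι)).card : ℝ)) =
      m * ((((FW (fun p => p ∈ A ∧ B₀ p) cl τ Wt (X ^ Fintype.card ι)).filter G).card : ℝ) -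
      α * ((FW (fun p => p ∈ A ∧ B₀ p) cl τ Wt (X ^ Fintype.card ι)).card : ℝ)) := by
    ring
  rw [e3, abs_mul, abs_of_pos hm1] at h2
  refine h2.trans (le_of_eq ?_)
  ring

/-- the quadratic symbols -/
theorem bilH_quad {J1 : Finset ι} {B₀ : ℕ → Prop} {cl : ℕ → ℕ} {τ : ι → ℕ}
    (hB : ∀ p, B₀ p → p.Prime ∧ p ≠ 2) {ε : ℝ} (hε : 0 ≤ ε) :
    BilH (Pool.Agent.Y703.CQ.HB J1) B₀ cl τ (2 / 3 + ε) (ε / 2) := by
  refine ⟨3, by norm_num, fun X Xf C hX hXf hcard hC hdis => ?_⟩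
  have hpr : ∀ i, ∀ q ∈ C i, q.Prime ∧ q ≠ 2 ∧ q ≤ X := by
    intro i q hq
    have h3 := hC i q hq
    exact ⟨(hB q h3.2.1).1, (hB q h3.2.1).2, h3.1⟩
  exact fun i l hil hi c d hc hd => Pool.Agent.NH3.FK.bilS hX (hpr i) (hpr l)
    (hdis i l hil) c d hc hd hε (hcard i) (hcard l) (hXf i) (hXf l)

end abs

/-! ### any number of kinds -/

section kinds

variable {m : ℕ}

/-- the indices -/
abbrev In (n : Fin m → ℕ) : Type := Σ r : Fin m, Fin (n r)

/-- the kinds of the indices -/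
def tn (n : Fin m → ℕ) : In n → ℕ := fun i => (i.1 : ℕ)

theorem card_In (n : Fin m → ℕ) : Fintype.card (In n) = ∑ r, n r := by
  rw [Fintype.card_sigma]
  simp

theorem card_tn (n : Fin m → ℕ) (r : Fin m) : (univ.filter fun i => tn n i = r).card = n r := by
  have e : (univ.filter fun i : In n => tn n i = r) = univ.image fun k : Fin (n r) => (⟨r, k⟩ : In n) := by
    ext ⟨s, k⟩
    rw [mem_filter, mem_image]
    constructor
    · rintro ⟨-, h⟩
      have h' : s = r := Fin.ext h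
      subst h'
      exact ⟨k, mem_univ _, rfl⟩
    · rintro ⟨k', -, h⟩
      refine ⟨mem_univ _, ?_⟩
      have h' : r = s := congrArg Sigma.fst h
      show ((s : Fin m) : ℕ) = r
      rw [h']
  rw [e, Finset.card_image_of_injective, Finset.card_univ, Fintype.card_fin]
  intro k k' h
  simpa using h

theorem qgn {cl : ℕ → ℕ} {n : Fin m → ℕ} {S : Finset ℕ} (hS : ∀ p ∈ S, cl p < m) :
    QG cl (tn n) S ↔ ∀ r : Fin m, nk cl r S = n r := by
  constructor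
  · intro h r
    have h1 := h r
    rw [card_tn] at h1
    exact h1
  · intro h r
    by_cases hr : r < m
    · have h1 := h ⟨r, hr⟩
      have h2 := card_tn n ⟨r, hr⟩
      simp only at h2
      rw [h2]
      exact h1
    · rw [Finset.card_eq_zero.2, Finset.card_eq_zero.2]
      · refine Finset.filter_eq_empty_iff.2 fun i _ h => ?_
        have := i.1.2
        unfold tn at h
        omega
      · refine Finset.filter_eq_empty_iff.2 fun p hp h => ?_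
        have := hS p hp
        omega

/-- the number of the sets with given numbers of the elements of the kinds -/
theorem card_kinds (cl : ℕ → ℕ) (T : Finset ℕ) (hT : ∀ p ∈ T, cl p < m) (n : Fin m → ℕ) :
    (T.powerset.filter fun S => ∀ r : Fin m, nk cl r S = n r).card =
      ∏ r : Fin m, (nk cl r T).choose (n r) := by
  unfold nk
  have e : ∏ r : Fin m, (T.filter fun p => cl p = r).card.choose (n r) =
      (Fintype.piFinset fun r : Fin m => (T.filter fun p => cl p = r).powersetCard (n r)).card := by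
    rw [Fintype.card_piFinset]
    exact Finset.prod_congr rfl fun r _ => (Finset.card_powersetCard _ _).symm
  rw [e]
  refine Finset.card_nbij' (fun S r => S.filter fun p => cl p = (r : ℕ))
    (fun f => univ.biUnion f) ?_ ?_ ?_ ?_
  · intro S hS
    rw [mem_coe, mem_filter, mem_powerset] at hS
    rw [mem_coe, Fintype.mem_piFinset]
    intro r
    rw [Finset.mem_powersetCard]
    exact ⟨Finset.filter_subset_filter _ hS.1, hS.2 r⟩
  · intro f hf
    rw [mem_coe, Fintype.mem_piFinset] at hf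
    have hf' : ∀ r, f r ⊆ (T.filter fun p => cl p = (r : ℕ)) ∧ (f r).card = n r := fun r =>
      Finset.mem_powersetCard.1 (hf r)
    rw [mem_coe, mem_filter, mem_powerset]
    refine ⟨fun p hp => ?_, fun r => ?_⟩
    · obtain ⟨r, -, h⟩ := mem_biUnion.1 hp
      exact (mem_filter.1 ((hf' r).1 h)).1
    · have e1 : (univ.biUnion f).filter (fun p => cl p = (r : ℕ)) = f r := by
        ext p
        rw [mem_filter, mem_biUnion]
        constructor
        · rintro ⟨⟨s, -, h⟩, h2⟩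
          have h3 := (mem_filter.1 ((hf' s).1 h)).2
          have h4 : s = r := Fin.ext (h3.symm.trans h2)
          rw [← h4]
          exact h
        · intro h
          exact ⟨⟨r, mem_univ _, h⟩, (mem_filter.1 ((hf' r).1 h)).2⟩
      rw [e1]
      exact (hf' r).2
  · intro S hS
    rw [mem_coe, mem_filter, mem_powerset] at hS
    ext p
    simp only [mem_biUnion, mem_filter, mem_univ, true_and]
    constructor
    · rintro ⟨r, h, -⟩
      exact h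
    · intro h
      exact ⟨⟨cl p, hT p (hS.1 h)⟩, h, rfl⟩
  · intro f hf
    rw [mem_coe, Fintype.mem_piFinset] at hf
    have hf' : ∀ r, f r ⊆ (T.filter fun p => cl p = (r : ℕ)) ∧ (f r).card = n r := fun r =>
      Finset.mem_powersetCard.1 (hf r)
    funext r
    ext p
    rw [mem_filter, mem_biUnion]
    constructor
    · rintro ⟨⟨s, -, h⟩, h2⟩
      have h3 := (mem_filter.1 ((hf' s).1 h)).2
      have h4 : s = r := Fin.ext (h3.symm.trans h2)
      rw [← h4]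
      exact h
    · intro h
      exact ⟨⟨r, mem_univ _, h⟩, (mem_filter.1 ((hf' r).1 h)).2⟩

/-- the family of numbers -/
def Fn (B₀ : ℕ → Prop) (cl : ℕ → ℕ) (A : Finset ℕ) (n : Fin m → ℕ) (D : ℕ) : Prop :=
  Squarefree D ∧ (∀ p ∈ D.primeFactors, p ∈ A ∧ B₀ p) ∧ ∀ r : Fin m, nk cl r D.primeFactors = n r

/-- **The law for the numbers.** -/
theorem law_Fn {B₀ : ℕ → Prop} {cl : ℕ → ℕ} {n : Fin m → ℕ} (inst : LinearOrder (In n))
    {H : (In n → Finset ℕ) → (In n → ℕ) → ℝ → Prop}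
    {G : Finset ℕ → Prop} {α θ δ : ℝ} (h0 : 0 ≤ α) (h1 : α ≤ 1) (hB : ∀ p, B₀ p → p.Prime)
    (hcl : ∀ p, B₀ p → cl p < m)
    (hBox : BoxH H B₀ cl (tn n) G α) (hBil : BilH H B₀ cl (tn n) θ δ) (hn : ∃ r, 0 < n r)
    (hθ : 0 < θ) (hδ : 0 ≤ δ) :
    ∃ C : ℝ, 0 < C ∧ ∀ (A : Finset ℕ) (X : ℕ), 1 ≤ X → (∀ p ∈ A, p ≤ X) →
      (∀ r, 0 < n r → (X : ℝ) ^ θ ≤ (nk cl r (A.filter B₀) : ℝ)) →
      |({D : ℕ | Fn B₀ cl A n D ∧ G D.primeFactors}.ncard : ℝ) -
        α * ({D : ℕ | Fn B₀ cl A n D}.ncard : ℝ)| ≤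
      C * (X : ℝ) ^ (-δ) * ({D : ℕ | Fn B₀ cl A n D}.ncard : ℝ) := by
  obtain ⟨C, hC, h⟩ := set_gen h0 h1 hB hBox hBil (by
    rw [card_In]
    obtain ⟨r, hr⟩ := hn
    exact lt_of_lt_of_le hr (Finset.single_le_sum (fun s _ => Nat.zero_le (n s)) (mem_univ r))) hθ hδ
  refine ⟨C, hC, fun A X hX hA hbig => ?_⟩
  have hk : ∀ i, (X : ℝ) ^ θ ≤ ((A.filter fun q => B₀ q ∧ cl q = tn n i).card : ℝ) := by
    rintro ⟨r, k⟩
    have h2 := hbig r k.pos
    unfold nk at h2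
    rw [Finset.filter_filter] at h2
    exact h2
  have h1 := h A X hX hA hk
  have hB' : ∀ p, p ∈ A ∧ B₀ p → p.Prime := fun p hp => hB p hp.2
  have hX' : ∀ p, p ∈ A ∧ B₀ p → p ≤ X := fun p hp => hA p hp.1
  have e1 := ncard_FW (cl := cl) (τ := tn n) hB' hX' G
  have e2 := ncard_FW (cl := cl) (τ := tn n) hB' hX' fun _ => True
  rw [Finset.filter_true] at e2
  rw [← e1, ← e2] at h1
  have k1 : {D : ℕ | Squarefree D ∧ (∀ p ∈ D.primeFactors, p ∈ A ∧ B₀ p) ∧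
      QG cl (tn n) D.primeFactors ∧ G D.primeFactors} =
      {D : ℕ | Fn B₀ cl A n D ∧ G D.primeFactors} := by
    ext D
    show (_ ∧ _ ∧ _ ∧ _) ↔ (Fn B₀ cl A n D ∧ _)
    unfold Fn
    constructor
    · rintro ⟨a1, a2, a3, a4⟩
      exact ⟨⟨a1, a2, (qgn fun p hp => hcl p (a2 p hp).2).1 a3⟩, a4⟩
    · rintro ⟨⟨a1, a2, a3⟩, a4⟩
      exact ⟨a1, a2, (qgn fun p hp => hcl p (a2 p hp).2).2 a3, a4⟩
  have k2 : {D : ℕ | Squarefree D ∧ (∀ p ∈ D.primeFactors, p ∈ A ∧ B₀ p) ∧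
      QG cl (tn n) D.primeFactors ∧ True} = {D : ℕ | Fn B₀ cl A n D} := by
    ext D
    show (_ ∧ _ ∧ _ ∧ _) ↔ Fn B₀ cl A n D
    unfold Fn
    constructor
    · rintro ⟨a1, a2, a3, -⟩
      exact ⟨a1, a2, (qgn fun p hp => hcl p (a2 p hp).2).1 a3⟩
    · rintro ⟨a1, a2, a3⟩
      exact ⟨a1, a2, (qgn fun p hp => hcl p (a2 p hp).2).2 a3, trivial⟩
  rw [k1, k2] at h1
  exact h1

/-- the size of the family -/
theorem card_Fn {B₀ : ℕ → Prop} {cl : ℕ → ℕ} (hB₀ : ∀ p, B₀ p → p.Prime)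
    (hcl : ∀ p, B₀ p → cl p < m) (A : Finset ℕ) (n : Fin m → ℕ) :
    {D : ℕ | Fn B₀ cl A n D}.ncard = ∏ r : Fin m, (nk cl r (A.filter B₀)).choose (n r) := by
  rw [← card_kinds cl (A.filter B₀) (fun p hp => hcl p (mem_filter.1 hp).2), ← Set.ncard_coe_finset]
  refine Set.ncard_congr (fun D _ => D.primeFactors) ?_ ?_ ?_
  · rintro D ⟨h1, h2, h3⟩
    rw [mem_coe, mem_filter, mem_powerset]
    exact ⟨fun p hp => mem_filter.2 (h2 p hp), h3⟩
  · rintro D D' ⟨h1, -⟩ ⟨h2, -⟩ e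
    rw [← Nat.prod_primeFactors_of_squarefree h1, ← Nat.prod_primeFactors_of_squarefree h2, e]
  · intro S hS
    rw [mem_coe, mem_filter, mem_powerset] at hS
    obtain ⟨h2, h3⟩ := hS
    have hB : ∀ p ∈ S, p.Prime := fun p hp => hB₀ p (mem_filter.1 (h2 hp)).2
    have hpf : (∏ p ∈ S, p).primeFactors = S := Nat.primeFactors_prod hB
    have hsq : Squarefree (∏ p ∈ S, p) := by
      refine Finset.squarefree_prod_of_pairwise_isCoprime ?_ fun p hp => (hB p hp).prime.squarefree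
      intro p hp q hq hpq
      exact Nat.coprime_iff_isRelPrime.1 ((Nat.coprime_primes (hB p hp) (hB q hq)).2 hpq)
    refine ⟨∏ p ∈ S, p, ⟨hsq, ?_, ?_⟩, hpf⟩
    · rw [hpf]
      exact fun p hp => mem_filter.1 (h2 hp)
    · rw [hpf]
      exact h3

end kinds

end Pool.Agent.NH3.FK.G
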