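import Pool.Agent.Y710.CQ.BIL

/-!
# Bilinear sums of quadratic symbols over sparse sets of primes

The method of moments with exponent two. The correlations of two symbols over an interval are bounded by
`6 X ^ (4 / 3)`, by the mean square of the sums over the translates of the interval.
-/

set_option autoImplicit false
set_option linter.all false

open Finset

namespace Pool.Agent.NH3.FK

open Pool.Agent.Y703.CQ (nr sg)
open Pool.Agent.Y710.CQ (xi xi_one xi_mul xi_norm xi_conj per_sum leg full xi_per sg_xi)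
open Pool.Agent.Y779.CX (second card_fact xi_prod)
open scoped ComplexConjugate

/-- **Bilinear sums of characters**, exponent `n + 1`. -/
theorem holderN (n : ℕ) {ι κ R : Type} [CommMonoid R] (P : Finset ι) (L : Finset κ) (D : Finset R)
    (φ : κ → R) (xi : ι → R → ℂ) (h1 : ∀ m ∈ P, xi m 1 = 1)
    (hm : ∀ m ∈ P, ∀ x y, xi m (x * y) = xi m x * xi m y)
    (hD : ∀ s : Fin (n + 1) → κ, (∀ i, s i ∈ L) → ∏ i, φ (s i) ∈ D)
    (hu : ∀ x ∈ L, ∀ s : Fin (n + 1) → κ, (∀ i, s i ∈ L) → φ x ∣ ∏ i, φ (s i) → ∃ i, x = s i)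
    (c : ι → ℂ) (d : κ → ℂ) (hc : ∀ m, ‖c m‖ ≤ 1) (hd : ∀ x, ‖d x‖ ≤ 1) (W : ℝ)
    (hW : ∀ eps : ι → ℂ, (∀ m, ‖eps m‖ ≤ 1) → ∑ g ∈ D, ‖∑ m ∈ P, eps m * xi m g‖ ^ 2 ≤ W) :
    ‖∑ m ∈ P, ∑ x ∈ L, c m * d x * xi m (φ x)‖ ^ (2 * (n + 1)) ≤
      (P.card : ℝ) ^ (2 * n) * ((L.card : ℝ) ^ (n + 1) * (((n + 1 : ℕ) : ℝ) ^ (n + 1) * W)) := by
  classical
  set X : ι → ℂ := fun m => ∑ x ∈ L, d x * xi m (φ x) with hX
  set eps : ι → ℂ := fun m => if X m = 0 then 0 else ((‖X m‖ ^ (n + 1) : ℝ) : ℂ) / (X m) ^ (n + 1)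
    with heps
  set Y : R → ℂ := fun g => ∑ m ∈ P, eps m * xi m g with hY
  set T : Finset (Fin (n + 1) → κ) := Fintype.piFinset fun _ : Fin (n + 1) => L with hT
  set M : ℝ := ∑ s ∈ T, ‖Y (∏ i, φ (s i))‖ with hM
  have hM0 : 0 ≤ M := sum_nonneg fun _ _ => norm_nonneg _
  have heps1 : ∀ m, ‖eps m‖ ≤ 1 := by
    intro m
    simp only [heps]
    split_ifs with h
    · simp
    · rw [norm_div, Complex.norm_real, norm_pow, norm_pow, norm_norm, div_self]
      exact pow_ne_zero _ (norm_ne_zero_iff.2 h)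
  have heps2 : ∀ m, eps m * (X m) ^ (n + 1) = ((‖X m‖ ^ (n + 1) : ℝ) : ℂ) := by
    intro m
    simp only [heps]
    split_ifs with h
    · rw [h]; simp
    · exact div_mul_cancel₀ _ (pow_ne_zero _ h)
  -- the first step
  have s1 : ‖∑ m ∈ P, ∑ x ∈ L, c m * d x * xi m (φ x)‖ ≤ ∑ m ∈ P, ‖X m‖ := by
    refine (norm_sum_le _ _).trans (sum_le_sum fun m _ => ?_)
    have e : ∑ x ∈ L, c m * d x * xi m (φ x) = c m * X m := by
      rw [hX, mul_sum]
      exact sum_congr rfl fun x _ => by ring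
    rw [e, norm_mul]
    exact mul_le_of_le_one_left (norm_nonneg _) (hc m)
  have s2 : (∑ m ∈ P, ‖X m‖) ^ (n + 1) ≤ (P.card : ℝ) ^ n * ∑ m ∈ P, ‖X m‖ ^ (n + 1) :=
    pow_sum_le_card_mul_sum_pow (s := P) (f := fun m => ‖X m‖) (fun _ _ => norm_nonneg _) n
  have s3 : ∑ m ∈ P, ‖X m‖ ^ (n + 1) ≤ M := by
    have e1 : ((∑ m ∈ P, ‖X m‖ ^ (n + 1) : ℝ) : ℂ) =
        ∑ s ∈ T, (∏ i, d (s i)) * Y (∏ i, φ (s i)) := by
      rw [Complex.ofReal_sum]
      have e2 : ∀ m ∈ P, ((‖X m‖ ^ (n + 1) : ℝ) : ℂ) =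
          ∑ s ∈ T, (∏ i, d (s i)) * (eps m * xi m (∏ i, φ (s i))) := by
        intro m hmP
        rw [← heps2 m]
        have e3 : (X m) ^ (n + 1) = ∏ _i : Fin (n + 1), ∑ x ∈ L, d x * xi m (φ x) := by
          rw [prod_const, card_univ, Fintype.card_fin]
        rw [e3, prod_univ_sum, mul_sum]
        refine sum_congr rfl fun s _ => ?_
        rw [prod_mul_distrib, xi_prod (xi m) (h1 m hmP) (hm m hmP)]
        ring
      rw [sum_congr rfl e2, sum_comm]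
      refine sum_congr rfl fun s _ => ?_
      rw [hY, mul_sum]
    have e4 : ∑ m ∈ P, ‖X m‖ ^ (n + 1) = ‖∑ s ∈ T, (∏ i, d (s i)) * Y (∏ i, φ (s i))‖ := by
      rw [← e1, Complex.norm_real, Real.norm_of_nonneg (sum_nonneg fun _ _ => by positivity)]
    rw [e4]
    refine (norm_sum_le _ _).trans (sum_le_sum fun s _ => ?_)
    rw [norm_mul]
    refine mul_le_of_le_one_left (norm_nonneg _) ?_
    rw [norm_prod]
    exact prod_le_one (fun _ _ => norm_nonneg _) fun _ _ => hd _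
  -- the second step
  have hcardT : (T.card : ℝ) = (L.card : ℝ) ^ (n + 1) := by
    rw [hT, Fintype.card_piFinset]
    simp only [prod_const, card_univ, Fintype.card_fin]
    push_cast
    rfl
  have s4 : M ^ 2 ≤ T.card * ∑ s ∈ T, ‖Y (∏ i, φ (s i))‖ ^ 2 :=
    sq_sum_le_card_mul_sum_sq (s := T) (f := fun s => ‖Y (∏ i, φ (s i))‖)
  have s5 : ∑ s ∈ T, ‖Y (∏ i, φ (s i))‖ ^ 2 ≤ ((n + 1 : ℕ) : ℝ) ^ (n + 1) * W := by
    have h6 : ∑ s ∈ T, ‖Y (∏ i, φ (s i))‖ ^ 2 ≤ ((n + 1 : ℕ) : ℝ) ^ (n + 1) * ∑ g ∈ D, ‖Y g‖ ^ 2 := by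
      rw [← sum_fiberwise_of_maps_to (s := T) (t := D) (g := fun s => ∏ i, φ (s i))]
      · rw [mul_sum]
        refine sum_le_sum fun q _ => ?_
        have e : ∀ s ∈ T.filter (fun s => ∏ i, φ (s i) = q),
            ‖Y (∏ i, φ (s i))‖ ^ 2 = ‖Y q‖ ^ 2 := by
          intro s hs
          rw [(mem_filter.1 hs).2]
        rw [sum_congr rfl e, sum_const, nsmul_eq_mul]
        refine mul_le_mul_of_nonneg_right ?_ (sq_nonneg _)
        exact_mod_cast card_fact L φ (n + 1) hu q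
      · intro s hs
        rw [hT, Fintype.mem_piFinset] at hs
        exact hD s hs
    exact h6.trans (mul_le_mul_of_nonneg_left (hW eps heps1) (by positivity))
  have s6 : M ^ 2 ≤ (L.card : ℝ) ^ (n + 1) * (((n + 1 : ℕ) : ℝ) ^ (n + 1) * W) := by
    refine s4.trans ?_
    rw [hcardT]
    exact mul_le_mul_of_nonneg_left s5 (by positivity)
  have s7 : ‖∑ m ∈ P, ∑ x ∈ L, c m * d x * xi m (φ x)‖ ^ (n + 1) ≤ (P.card : ℝ) ^ n * M :=
    (pow_le_pow_left₀ (norm_nonneg _) s1 (n + 1)).trans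
      (s2.trans (mul_le_mul_of_nonneg_left s3 (by positivity)))
  calc ‖∑ m ∈ P, ∑ x ∈ L, c m * d x * xi m (φ x)‖ ^ (2 * (n + 1))
      = (‖∑ m ∈ P, ∑ x ∈ L, c m * d x * xi m (φ x)‖ ^ (n + 1)) ^ 2 := by
        rw [← pow_mul, mul_comm 2]
    _ ≤ ((P.card : ℝ) ^ n * M) ^ 2 := pow_le_pow_left₀ (by positivity) s7 2
    _ = (P.card : ℝ) ^ (2 * n) * M ^ 2 := by ring
    _ ≤ _ := mul_le_mul_of_nonneg_left s6 (by positivity)

/-! ### the correlations -/

/-- the complete sum of a product of shifted symbols modulo a prime -/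
theorem shift_sum {p : ℕ} [Fact p.Prime] (hp2 : p ≠ 2) (k : ZMod p) :
    ∑ x : ZMod p, quadraticChar (ZMod p) x * quadraticChar (ZMod p) (x + k) =
      (if k = 0 then (p : ℤ) else 0) - 1 := by
  classical
  by_cases hk : k = 0
  · subst hk
    rw [if_pos rfl]
    have e : ∀ x : ZMod p, quadraticChar (ZMod p) x * quadraticChar (ZMod p) (x + 0) =
        1 - if x = 0 then 1 else 0 := by
      intro x
      rw [add_zero]
      by_cases hx : x = 0
      · subst hx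
        simp
      · rw [if_neg hx, sub_zero, ← sq]
        exact quadraticChar_sq_one hx
    rw [sum_congr rfl fun x _ => e x, sum_sub_distrib, sum_ite_eq', if_pos (mem_univ _), sum_const,
      card_univ, ZMod.card]
    simp
  · rw [if_neg hk, zero_sub]
    have h0 := quadraticChar_sum_zero (F := ZMod p) (by rwa [ZMod.ringChar_zmod_n])
    have e : ∀ x : ZMod p, x ≠ 0 → quadraticChar (ZMod p) x * quadraticChar (ZMod p) (x + k) =
        quadraticChar (ZMod p) (1 + k * x⁻¹) := by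
      intro x hx
      rw [← map_mul]
      have e1 : x * (x + k) = x ^ 2 * (1 + k * x⁻¹) := by
        field_simp
      rw [e1, map_mul, map_pow, quadraticChar_sq_one hx, one_mul]
    have h1 : ∑ x : ZMod p, quadraticChar (ZMod p) x * quadraticChar (ZMod p) (x + k) =
        ∑ x ∈ univ.filter (fun x : ZMod p => x ≠ 0), quadraticChar (ZMod p) (1 + k * x⁻¹) := by
      rw [sum_filter]
      refine sum_congr rfl fun x _ => ?_
      by_cases hx : x = 0
      · subst hx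
        simp
      · rw [if_pos hx, e x hx]
    have h2 : ∑ x ∈ univ.filter (fun x : ZMod p => x ≠ 0), quadraticChar (ZMod p) (1 + k * x⁻¹) =
        ∑ y ∈ univ.filter (fun y : ZMod p => y ≠ 1), quadraticChar (ZMod p) y := by
      refine sum_nbij' (fun x => 1 + k * x⁻¹) (fun y => k * (y - 1)⁻¹) (fun x hx => ?_)
        (fun y hy => ?_) (fun x hx => ?_) (fun y hy => ?_) (fun _ _ => rfl)
      · rw [mem_filter] at hx ⊢
        refine ⟨mem_univ _, fun h => ?_⟩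
        have h3 : k * x⁻¹ = 0 := by linear_combination h
        exact mul_ne_zero hk (inv_ne_zero hx.2) h3
      · rw [mem_filter] at hy ⊢
        exact ⟨mem_univ _, mul_ne_zero hk (inv_ne_zero (sub_ne_zero.2 hy.2))⟩
      · rw [mem_filter] at hx
        have hx' := hx.2
        show k * (1 + k * x⁻¹ - 1)⁻¹ = x
        rw [add_sub_cancel_left]
        field_simp
      · rw [mem_filter] at hy
        have hy' : y - 1 ≠ 0 := sub_ne_zero.2 hy.2
        show 1 + k * (k * (y - 1)⁻¹)⁻¹ = y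
        have : k * (k * (y - 1)⁻¹)⁻¹ = y - 1 := by field_simp
        rw [this]
        ring
    rw [h1, h2]
    have h3 := Finset.sum_filter_add_sum_filter_not (univ : Finset (ZMod p)) (fun y => y ≠ 1)
      (fun y => quadraticChar (ZMod p) y)
    rw [h0] at h3
    have h4 : (univ.filter fun y : ZMod p => ¬ y ≠ 1) = {1} := by
      ext y
      simp
    rw [h4, sum_singleton, map_one] at h3
    linarith

/-- the product of two symbols -/
def J2 (p q n : ℕ) : ℤ := jacobiSym (n : ℤ) p * jacobiSym (n : ℤ) q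

theorem jac {p : ℕ} [Fact p.Prime] (n : ℕ) :
    jacobiSym (n : ℤ) p = quadraticChar (ZMod p) (n : ZMod p) := by
  rw [← jacobiSym.legendreSym.to_jacobiSym]
  unfold legendreSym
  congr 1
  push_cast
  rfl

theorem abs_J2 (p q n : ℕ) : |J2 p q n| ≤ 1 := by
  unfold J2
  rcases jacobiSym.trichotomy (n : ℤ) p with h | h | h <;>
    rcases jacobiSym.trichotomy (n : ℤ) q with h' | h' | h' <;> rw [h, h'] <;> simp

/-- a complete sum modulo the product of two numbers -/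
theorem crt_sum {p q : ℕ} [NeZero p] [NeZero q] (hc : Nat.Coprime p q) (F : ZMod p → ℤ)
    (G : ZMod q → ℤ) :
    ∑ i ∈ range (p * q), F (i : ZMod p) * G (i : ZMod q) = (∑ u, F u) * ∑ v, G v := by
  have : NeZero (p * q) := ⟨Nat.mul_ne_zero (NeZero.ne p) (NeZero.ne q)⟩
  set e := ZMod.chineseRemainder hc with he
  have e1 : ∑ i ∈ range (p * q), F (i : ZMod p) * G (i : ZMod q) =
      ∑ x : ZMod (p * q), F (e x).1 * G (e x).2 := by
    refine sum_nbij' (fun n => (n : ZMod (p * q))) ZMod.val (fun _ _ => mem_univ _)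
      (fun x _ => mem_range.2 (ZMod.val_lt x)) (fun n hn => ?_) (fun x _ => ?_) (fun n _ => ?_)
    · exact ZMod.val_cast_of_lt (mem_range.1 hn)
    · exact ZMod.natCast_zmod_val x
    · have hen : e (n : ZMod (p * q)) = ((n : ZMod p), (n : ZMod q)) := map_natCast e n
      rw [hen]
  rw [e1]
  have e2 := Equiv.sum_comp e.toEquiv (fun y : ZMod p × ZMod q => F y.1 * G y.2)
  refine e2.trans ?_
  rw [Fintype.sum_prod_type, sum_mul_sum]

/-- the complete correlations -/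
theorem corr_full {p q : ℕ} (hp : p.Prime) (hq : q.Prime) (hp2 : p ≠ 2) (hq2 : q ≠ 2)
    (hne : p ≠ q) (x x' : ℕ) :
    ∑ h ∈ range (p * q), J2 p q (h + x) * J2 p q (h + x') =
      ((if ((x : ZMod p)) = x' then (p : ℤ) else 0) - 1) *
        ((if ((x : ZMod q)) = x' then (q : ℤ) else 0) - 1) := by
  have : Fact p.Prime := ⟨hp⟩
  have : Fact q.Prime := ⟨hq⟩
  have hc : Nat.Coprime p q := (Nat.coprime_primes hp hq).2 hne
  have h1 : ∀ h : ℕ, J2 p q (h + x) * J2 p q (h + x') =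
      (fun u : ZMod p => quadraticChar (ZMod p) (u + x) * quadraticChar (ZMod p) (u + x')) (h : ZMod p) *
      (fun v : ZMod q => quadraticChar (ZMod q) (v + x) * quadraticChar (ZMod q) (v + x'))
        (h : ZMod q) := by
    intro h
    unfold J2
    rw [jac, jac, jac, jac]
    push_cast
    ring
  rw [sum_congr rfl fun h _ => h1 h]
  refine (crt_sum hc (fun u : ZMod p => quadraticChar (ZMod p) (u + x) *
    quadraticChar (ZMod p) (u + x')) (fun v : ZMod q => quadraticChar (ZMod q) (v + x) *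
    quadraticChar (ZMod q) (v + x'))).trans ?_
  have h2 : ∀ (r : ℕ) [Fact r.Prime], r ≠ 2 →
      ∑ u : ZMod r, quadraticChar (ZMod r) (u + x) * quadraticChar (ZMod r) (u + x') =
      (if ((x : ZMod r)) = x' then (r : ℤ) else 0) - 1 := by
    intro r _ hr
    have h3 := shift_sum hr ((x' : ZMod r) - x)
    rw [← Equiv.sum_comp (Equiv.addRight (x : ZMod r))] at h3
    simp only [Equiv.coe_addRight] at h3
    have h4 : ∀ u : ZMod r, u + (x : ZMod r) + (x' - x) = u + x' := fun u => by ring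
    rw [sum_congr rfl fun u _ => by rw [h4 u]] at h3
    rw [h3]
    congr 1
    by_cases h5 : (x : ZMod r) = x'
    · rw [if_pos h5, if_pos (by rw [h5, sub_self])]
    · rw [if_neg h5, if_neg (sub_ne_zero.2 (Ne.symm h5))]
  rw [h2 p hp2, h2 q hq2]

/-- the mean square of the sums over the translates of an interval -/
theorem mean_sq {p q : ℕ} (hp : p.Prime) (hq : q.Prime) (hp2 : p ≠ 2) (hq2 : q ≠ 2)
    (hne : p ≠ q) (V : ℕ) (hV : V ≤ p * q) :
    ∑ h ∈ range (p * q), (∑ x ∈ range V, J2 p q (h + x)) ^ 2 ≤ 2 * ((p * q : ℕ) : ℤ) ^ 2 := by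
  have h1 : ∑ h ∈ range (p * q), (∑ x ∈ range V, J2 p q (h + x)) ^ 2 =
      ∑ x ∈ range V, ∑ x' ∈ range V, ∑ h ∈ range (p * q), J2 p q (h + x) * J2 p q (h + x') := by
    have h2 : ∀ h : ℕ, (∑ x ∈ range V, J2 p q (h + x)) ^ 2 =
        ∑ x ∈ range V, ∑ x' ∈ range V, J2 p q (h + x) * J2 p q (h + x') := by
      intro h
      rw [sq, sum_mul_sum]
    rw [sum_congr rfl fun h _ => h2 h, sum_comm]
    refine sum_congr rfl fun x _ => ?_
    rw [sum_comm]
  have hN : (1 : ℤ) ≤ ((p * q : ℕ) : ℤ) := by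
    exact_mod_cast Nat.mul_pos hp.pos hq.pos
  have h3 : ∀ x ∈ range V, ∀ x' ∈ range V,
      ∑ h ∈ range (p * q), J2 p q (h + x) * J2 p q (h + x') ≤
      (if x = x' then ((p * q : ℕ) : ℤ) else 0) + 1 := by
    intro x hx x' hx'
    rw [mem_range] at hx hx'
    rw [corr_full hp hq hp2 hq2 hne]
    have hp1 : (1 : ℤ) ≤ p := by exact_mod_cast hp.pos
    have hq1 : (1 : ℤ) ≤ q := by exact_mod_cast hq.pos
    by_cases h4 : x = x'
    · rw [if_pos (by rw [h4]), if_pos (by rw [h4]), if_pos h4]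
      push_cast
      nlinarith
    · rw [if_neg h4]
      by_cases h5 : (x : ZMod p) = x'
      · have h6 : ¬ (x : ZMod q) = x' := by
          intro h6
          rw [ZMod.natCast_eq_natCast_iff] at h5 h6
          have h7 : x ≡ x' [MOD p * q] :=
            (Nat.modEq_and_modEq_iff_modEq_mul ((Nat.coprime_primes hp hq).2 hne)).1 ⟨h5, h6⟩
          exact h4 (Nat.ModEq.eq_of_lt_of_lt h7 (by omega) (by omega))
        rw [if_pos h5, if_neg h6]
        linarith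
      · rw [if_neg h5]
        by_cases h6 : (x : ZMod q) = x'
        · rw [if_pos h6]
          linarith
        · rw [if_neg h6]
          norm_num
  rw [h1]
  refine (sum_le_sum fun x hx => sum_le_sum fun x' hx' => h3 x hx x' hx').trans ?_
  have h8 : ∀ x ∈ range V, ∑ x' ∈ range V, ((if x = x' then ((p * q : ℕ) : ℤ) else 0) + 1) =
      ((p * q : ℕ) : ℤ) + V := by
    intro x hx
    rw [sum_add_distrib, sum_ite_eq, if_pos hx, sum_const, card_range, nsmul_eq_mul, mul_one]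
  rw [sum_congr rfl h8, sum_const, card_range, nsmul_eq_mul]
  have h9 : (V : ℤ) ≤ ((p * q : ℕ) : ℤ) := by exact_mod_cast hV
  have h10 : (0 : ℤ) ≤ V := by positivity
  nlinarith

/-- sums over intervals, the first form -/
theorem int_sum {p q : ℕ} (hp : p.Prime) (hq : q.Prime) (hp2 : p ≠ 2) (hq2 : q ≠ 2)
    (hne : p ≠ q) (V H : ℕ) (hV : V ≤ p * q) (hH : H ≤ p * q) :
    (H : ℤ) * (∑ x ∈ range V, J2 p q x) ^ 2 ≤ 4 * ((p * q : ℕ) : ℤ) ^ 2 + 8 * (H : ℤ) ^ 3 := by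
  set g : ℕ → ℤ := fun h => ∑ x ∈ range V, J2 p q (h + x) with hg
  have h0 : g 0 = ∑ x ∈ range V, J2 p q x := by
    rw [hg]
    simp only [zero_add]
  have h1 : ∀ h, |g h - g 0| ≤ 2 * h := by
    intro h
    induction h with
    | zero => simp
    | succ h ih =>
      have e : g (h + 1) - g h = J2 p q (h + V) - J2 p q h := by
        have e1 : g (h + 1) = ∑ x ∈ range V, J2 p q (h + (x + 1)) := by
          rw [hg]
          exact sum_congr rfl fun x _ => by rw [show h + 1 + x = h + (x + 1) by ring]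
        have e2 := sum_range_succ' (fun x => J2 p q (h + x)) V
        have e3 := sum_range_succ (fun x => J2 p q (h + x)) V
        rw [e1]
        rw [hg]
        simp only [add_zero] at e2 ⊢
        linarith
      have a1 := abs_J2 p q (h + V)
      have a2 := abs_J2 p q h
      rw [abs_le] at a1 a2 ih ⊢
      push_cast
      constructor <;> linarith [a1.1, a1.2, a2.1, a2.2, ih.1, ih.2]
  have h2 : ∀ h ∈ range H, (g 0) ^ 2 ≤ 2 * (g h) ^ 2 + 8 * (H : ℤ) ^ 2 := by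
    intro h hh
    rw [mem_range] at hh
    have h3 := h1 h
    have h4 : (h : ℤ) ≤ H := by exact_mod_cast hh.le
    have h5 : (0 : ℤ) ≤ h := by positivity
    have h6 : (g h - g 0) ^ 2 ≤ (2 * (H : ℤ)) ^ 2 := by
      rw [← sq_abs]
      exact pow_le_pow_left₀ (abs_nonneg _) (by linarith) 2
    nlinarith [sq_nonneg (g h + (g h - g 0)), sq_nonneg (2 * g h - g 0)]
  have h3 := sum_le_sum h2
  rw [sum_const, card_range, nsmul_eq_mul, sum_add_distrib, ← mul_sum, sum_const, card_range,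
    nsmul_eq_mul] at h3
  have h4 : ∑ h ∈ range H, (g h) ^ 2 ≤ ∑ h ∈ range (p * q), (g h) ^ 2 :=
    sum_le_sum_of_subset_of_nonneg (range_mono hH) fun _ _ _ => sq_nonneg _
  have h5 := mean_sq hp hq hp2 hq2 hne V hV
  rw [← h0]
  have h6 : (H : ℤ) * (8 * (H : ℤ) ^ 2) = 8 * (H : ℤ) ^ 3 := by ring
  rw [h6] at h3
  have h7 : ∑ h ∈ range (p * q), (g h) ^ 2 ≤ 2 * ((p * q : ℕ) : ℤ) ^ 2 := h5
  linarith

/-- a sum of a periodic function with vanishing period sum -/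
theorem per_red {g : ℕ → ℂ} {N : ℕ} (hg : ∀ y, g (y + N) = g y)
    (h0 : ∑ i ∈ range N, g i = 0) (V : ℕ) :
    ∑ i ∈ range V, g i = ∑ i ∈ range (V % N), g i := by
  have h1 : ∀ m x : ℕ, g (m * N + x) = g x := by
    intro m
    induction m with
    | zero => intro x; rw [zero_mul, zero_add]
    | succ m ih =>
      intro x
      rw [show (m + 1) * N + x = (m * N + x) + N by ring, hg, ih]
  have h2 : ∀ m : ℕ, ∑ i ∈ range (m * N), g i = 0 := by
    intro m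
    induction m with
    | zero => simp
    | succ m ih =>
      rw [Nat.succ_mul, sum_range_add, ih, sum_congr rfl fun x _ => h1 m x, h0, add_zero]
  have h3 : V = (V / N) * N + V % N := by
    rw [mul_comm]
    exact (Nat.div_add_mod V N).symm
  conv_lhs => rw [h3]
  rw [sum_range_add, h2, zero_add, sum_congr rfl fun x _ => h1 _ x]

/-- sums over intervals, the second form -/
theorem int_sum2 {p q X : ℕ} (hp : p.Prime) (hq : q.Prime) (hp2 : p ≠ 2) (hq2 : q ≠ 2)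
    (hne : p ≠ q) (hpX : p ≤ X) (hqX : q ≤ X) (V : ℕ) (hV : V ≤ p * q) :
    |((∑ x ∈ range V, J2 p q x : ℤ) : ℝ)| ≤ 6 * (X : ℝ) ^ (4 / 3 : ℝ) := by
  have hX : 1 ≤ X := hp.pos.trans_le hpX
  have hX1 : (1 : ℝ) ≤ X := by exact_mod_cast hX
  have hX0 : (0 : ℝ) < X := by linarith
  set t : ℝ := (X : ℝ) ^ (4 / 3 : ℝ) with ht
  have ht1 : 1 ≤ t := Real.one_le_rpow hX1 (by norm_num)
  have ht3 : t ^ 3 = (X : ℝ) ^ 4 := by
    rw [ht, ← Real.rpow_natCast, ← Real.rpow_mul hX0.le, ← Real.rpow_natCast]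
    norm_num
  set H : ℕ := ⌈t⌉₊ with hH
  have hH1 : t ≤ H := Nat.le_ceil t
  have hH2 : (H : ℝ) ≤ 2 * t := by
    have := Nat.ceil_lt_add_one (show 0 ≤ t by linarith)
    linarith
  set y : ℤ := ∑ x ∈ range V, J2 p q x with hy
  rcases le_or_gt H (p * q) with h | h
  · have h1 := int_sum hp hq hp2 hq2 hne V H hV h
    have h2 : (H : ℝ) * (y : ℝ) ^ 2 ≤ 4 * ((p * q : ℕ) : ℝ) ^ 2 + 8 * (H : ℝ) ^ 3 := by
      exact_mod_cast h1
    have h3 : ((p * q : ℕ) : ℝ) ^ 2 ≤ t ^ 3 := by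
      rw [ht3]
      have h4 : ((p * q : ℕ) : ℝ) ≤ X * X := by exact_mod_cast Nat.mul_le_mul hpX hqX
      calc ((p * q : ℕ) : ℝ) ^ 2 ≤ ((X : ℝ) * X) ^ 2 := pow_le_pow_left₀ (by positivity) h4 2
        _ = (X : ℝ) ^ 4 := by ring
    have hHp : (0 : ℝ) < H := by linarith
    have h5 : t ^ 3 ≤ H * t ^ 2 := by
      have : t ^ 3 = t * t ^ 2 := by ring
      rw [this]
      exact mul_le_mul_of_nonneg_right hH1 (by positivity)
    have h6 : 8 * (H : ℝ) ^ 3 ≤ H * (32 * t ^ 2) := by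
      have h7 : (H : ℝ) ^ 2 ≤ (2 * t) ^ 2 := pow_le_pow_left₀ hHp.le hH2 2
      have : 8 * (H : ℝ) ^ 3 = H * (8 * (H : ℝ) ^ 2) := by ring
      rw [this]
      refine mul_le_mul_of_nonneg_left ?_ hHp.le
      nlinarith
    have h7 : (H : ℝ) * (y : ℝ) ^ 2 ≤ H * (6 * t) ^ 2 := by
      have : (H : ℝ) * (6 * t) ^ 2 = H * (4 * t ^ 2) + H * (32 * t ^ 2) := by ring
      rw [this]
      nlinarith
    have h8 : (y : ℝ) ^ 2 ≤ (6 * t) ^ 2 := le_of_mul_le_mul_left h7 hHp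
    exact abs_le_of_sq_le_sq h8 (by linarith)
  · have h1 : |y| ≤ (V : ℤ) := by
      rw [hy]
      refine (abs_sum_le_sum_abs _ _).trans ?_
      refine (sum_le_sum fun x _ => abs_J2 p q x).trans ?_
      rw [sum_const, card_range, nsmul_eq_mul, mul_one]
    have h2 : |(y : ℝ)| ≤ V := by exact_mod_cast h1
    have h3 : (V : ℝ) ≤ H := by exact_mod_cast (by omega : V ≤ H)
    linarith

/-- the correlations of two symbols -/
theorem corr2 {p q X : ℕ} (hp : p.Prime) (hq : q.Prime) (hp2 : p ≠ 2) (hq2 : q ≠ 2)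
    (hne : p ≠ q) (hpX : p ≤ X) (hqX : q ≤ X) (V : ℕ) :
    ‖∑ i ∈ range V, xi p i * conj (xi q i)‖ ≤ 6 * (X : ℝ) ^ (4 / 3 : ℝ) := by
  have h1 : ∀ i, xi p i * conj (xi q i) = ((J2 p q i : ℤ) : ℂ) := by
    intro i
    rw [xi_conj]
    unfold xi J2
    push_cast
    rfl
  have h2 : ∑ i ∈ range V, xi p i * xi q i = ∑ i ∈ range (V % (p * q)), xi p i * xi q i := by
    refine per_red (g := fun i => xi p i * xi q i) (N := p * q) (fun y => ?_)
      (full hp hq hp2 hne) V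
    show xi p (y + p * q) * xi q (y + p * q) = xi p y * xi q y
    rw [xi_per, mul_comm p q, xi_per]
  have h3 : ∑ i ∈ range V, xi p i * conj (xi q i) =
      (((∑ i ∈ range (V % (p * q)), J2 p q i : ℤ) : ℝ) : ℂ) := by
    have h4 : ∑ i ∈ range V, xi p i * conj (xi q i) = ∑ i ∈ range V, xi p i * xi q i :=
      sum_congr rfl fun i _ => by rw [xi_conj]
    rw [h4, h2]
    push_cast
    refine sum_congr rfl fun i _ => ?_
    have h5 := h1 i
    rw [xi_conj] at h5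
    exact h5
  rw [h3, Complex.norm_real, Real.norm_eq_abs]
  exact int_sum2 hp hq hp2 hq2 hne hpX hqX _ (Nat.mod_lt _ (Nat.mul_pos hp.pos hq.pos)).le

/-- **The bilinear estimate** -/
theorem bil2 {T P : Finset ℕ} {X : ℕ} (hX : 1 ≤ X)
    (hT : ∀ q ∈ T, q.Prime ∧ q ≠ 2 ∧ q ≤ X) (hP : ∀ p ∈ P, p.Prime ∧ p ≠ 2 ∧ p ≤ X)
    (c d : ℕ → ℂ) (hc : ∀ p, ‖c p‖ ≤ 1) (hd : ∀ q, ‖d q‖ ≤ 1) :
    ‖∑ m ∈ T, ∑ x ∈ P, c m * d x * xi m x‖ ^ 4 ≤ (T.card : ℝ) ^ 2 * ((P.card : ℝ) ^ 2 *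
      (4 * (T.card * (2 * (X : ℝ) ^ 2) + (T.card : ℝ) ^ 2 * (6 * (X : ℝ) ^ (4 / 3 : ℝ))))) := by
  have hXr : (1 : ℝ) ≤ X := by exact_mod_cast hX
  have hW : ∀ eps : ℕ → ℂ, (∀ m, ‖eps m‖ ≤ 1) →
      ∑ g ∈ range (X ^ 2 + 1), ‖∑ m ∈ T, eps m * xi m g‖ ^ 2 ≤
        T.card * (2 * (X : ℝ) ^ 2) + (T.card : ℝ) ^ 2 * (6 * (X : ℝ) ^ (4 / 3 : ℝ)) := by
    intro eps heps
    refine (second T (range (X ^ 2 + 1)) xi (fun m _ g => xi_norm m g)
      (6 * (X : ℝ) ^ (4 / 3 : ℝ)) (by positivity) (fun m hm m' hm' hne => ?_) eps heps).trans ?_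
    · exact corr2 (hT m hm).1 (hT m' hm').1 (hT m hm).2.1 (hT m' hm').2.1 hne (hT m hm).2.2
        (hT m' hm').2.2 _
    · rw [card_range]
      push_cast
      have e1 : (1 : ℝ) ≤ (X : ℝ) ^ 2 := one_le_pow₀ hXr
      have e2 : (T.card : ℝ) * ((X : ℝ) ^ 2 + 1) ≤ T.card * (2 * (X : ℝ) ^ 2) :=
        mul_le_mul_of_nonneg_left (by linarith) (by positivity)
      linarith
  have hu : ∀ x ∈ P, ∀ s : Fin (1 + 1) → ℕ, (∀ i, s i ∈ P) → id x ∣ ∏ i, id (s i) →
      ∃ i, x = s i := by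
    intro x hx s hs hd
    obtain ⟨j, -, hj⟩ := (Prime.dvd_finsetProd_iff (hP x hx).1.prime _).1 hd
    exact ⟨j, (Nat.prime_dvd_prime_iff_eq (hP x hx).1 (hP _ (hs j)).1).1 hj⟩
  have hD : ∀ s : Fin (1 + 1) → ℕ, (∀ i, s i ∈ P) → ∏ i, id (s i) ∈ range (X ^ 2 + 1) := by
    intro s hs
    rw [mem_range, Nat.lt_succ_iff]
    refine (prod_le_prod' (g := fun _ => X) fun i _ => (hP _ (hs i)).2.2).trans ?_
    rw [prod_const, card_univ, Fintype.card_fin]
  have h := holderN 1 T P (range (X ^ 2 + 1)) id xi (fun m _ => xi_one m)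
    (fun m _ => xi_mul m) hD hu c d hc hd _ hW
  refine h.trans (le_of_eq ?_)
  norm_num

/-- the bilinear estimate for sets which are not too sparse -/
theorem bilS {T P : Finset ℕ} {X : ℕ} (hX : 1 ≤ X)
    (hT : ∀ q ∈ T, q.Prime ∧ q ≠ 2 ∧ q ≤ X) (hP : ∀ p ∈ P, p.Prime ∧ p ≠ 2 ∧ p ≤ X)
    (hdis : Disjoint T P) (c d : ℕ → ℂ) (hc : ∀ p, ‖c p‖ ≤ 1) (hd : ∀ q, ‖d q‖ ≤ 1)
    {ε : ℝ} (hε : 0 ≤ ε) {m n : ℕ} (hm : T.card ≤ m) (hn : P.card ≤ n)
    (hm' : (X : ℝ) ^ (2 / 3 + ε) ≤ m) (hn' : (X : ℝ) ^ (2 / 3 + ε) ≤ n) :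
    ‖∑ x ∈ T, ∑ y ∈ P, c x * d y * sg (nr x y)‖ ≤ (3 * (X : ℝ) ^ (-(ε / 2))) * (m * n) := by
  have hX1 : (1 : ℝ) ≤ X := by exact_mod_cast hX
  have hX0 : (0 : ℝ) < X := by linarith
  have e0 : ∑ x ∈ T, ∑ y ∈ P, c x * d y * sg (nr x y) = ∑ x ∈ T, ∑ y ∈ P, c x * d y * xi x y := by
    refine sum_congr rfl fun x hx => sum_congr rfl fun y hy => ?_
    rw [sg_xi (hT x hx).1 (hP y hy).1 fun h => (Finset.disjoint_left.1 hdis) hx (h ▸ hy)]
  rw [e0]
  set u : ℝ := (X : ℝ) ^ (2 / 3 : ℝ) with hu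
  set v : ℝ := (X : ℝ) ^ (ε / 2) with hv
  have hu1 : 1 ≤ u := Real.one_le_rpow hX1 (by norm_num)
  have hv1 : 1 ≤ v := Real.one_le_rpow hX1 (by linarith)
  have e1 : (X : ℝ) ^ 2 = u ^ 3 := by
    rw [hu, ← Real.rpow_natCast ((X : ℝ) ^ (2 / 3 : ℝ)) 3, ← Real.rpow_mul hX0.le,
      ← Real.rpow_natCast (X : ℝ) 2]
    norm_num
  have e2 : (X : ℝ) ^ (4 / 3 : ℝ) = u ^ 2 := by
    rw [hu, ← Real.rpow_natCast ((X : ℝ) ^ (2 / 3 : ℝ)) 2, ← Real.rpow_mul hX0.le]
    norm_num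
  have e3 : (X : ℝ) ^ (-(ε / 2)) = v⁻¹ := by
    rw [hv, Real.rpow_neg hX0.le]
  have e4 : (X : ℝ) ^ (2 / 3 + ε) = u * v ^ 2 := by
    rw [hu, hv, Real.rpow_add hX0, ← Real.rpow_natCast ((X : ℝ) ^ (ε / 2)), ← Real.rpow_mul hX0.le]
    norm_num
  have hb := bil2 hX hT hP c d hc hd
  rw [e1, e2] at hb
  rw [e4] at hm' hn'
  rw [e3]
  have hmr : (T.card : ℝ) ≤ m := by exact_mod_cast hm
  have hnr : (P.card : ℝ) ≤ n := by exact_mod_cast hn
  have hm0 : (0 : ℝ) ≤ m := by positivity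
  have hn0 : (0 : ℝ) ≤ n := by positivity
  set M : ℝ := (m : ℝ) with hM
  set N : ℝ := (n : ℝ) with hN
  have hv0 : 0 < v := by linarith
  have hu0 : 0 < u := by linarith
  have h1 : (T.card : ℝ) ^ 2 * ((P.card : ℝ) ^ 2 *
      (4 * (T.card * (2 * u ^ 3) + (T.card : ℝ) ^ 2 * (6 * u ^ 2)))) ≤
      M ^ 2 * (N ^ 2 * (4 * (M * (2 * u ^ 3) + M ^ 2 * (6 * u ^ 2)))) := by
    gcongr
  have huv : u ^ 2 * v ^ 4 ≤ N ^ 2 := by
    calc u ^ 2 * v ^ 4 = (u * v ^ 2) ^ 2 := by ring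
      _ ≤ N ^ 2 := pow_le_pow_left₀ (by positivity) hn' 2
  have huM : u ≤ M := by
    refine le_trans ?_ hm'
    exact le_mul_of_one_le_right hu0.le (one_le_pow₀ hv1)
  have h2 : (M ^ 2 * (N ^ 2 * (4 * (M * (2 * u ^ 3) + M ^ 2 * (6 * u ^ 2))))) * v ^ 4 ≤
      81 * (M * N) ^ 4 := by
    have a1 : M * (2 * u ^ 3) + M ^ 2 * (6 * u ^ 2) ≤ M ^ 2 * (8 * u ^ 2) := by
      have : M * (2 * u ^ 3) = M * (u * (2 * u ^ 2)) := by ring
      have a2 : M * (u * (2 * u ^ 2)) ≤ M * (M * (2 * u ^ 2)) := by gcongr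
      nlinarith
    calc (M ^ 2 * (N ^ 2 * (4 * (M * (2 * u ^ 3) + M ^ 2 * (6 * u ^ 2))))) * v ^ 4
        ≤ (M ^ 2 * (N ^ 2 * (4 * (M ^ 2 * (8 * u ^ 2))))) * v ^ 4 := by gcongr
      _ = 32 * (M ^ 4 * N ^ 2) * (u ^ 2 * v ^ 4) := by ring
      _ ≤ 32 * (M ^ 4 * N ^ 2) * N ^ 2 := by gcongr
      _ ≤ 81 * (M * N) ^ 4 := by
        have : 0 ≤ M ^ 4 * N ^ 4 := by positivity
        nlinarith
  have h3 : ‖∑ m ∈ T, ∑ x ∈ P, c m * d x * xi m x‖ ^ 4 ≤ ((3 * v⁻¹) * (M * N)) ^ 4 := by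
    have h4 : ((3 * v⁻¹) * (M * N)) ^ 4 = 81 * (M * N) ^ 4 / v ^ 4 := by
      rw [mul_pow, mul_pow, inv_pow, div_eq_mul_inv]
      ring
    rw [h4, le_div_iff₀ (by positivity)]
    refine le_trans ?_ h2
    exact mul_le_mul_of_nonneg_right (hb.trans h1) (by positivity)
  exact (pow_le_pow_iff_left₀ (norm_nonneg _) (by positivity) (by norm_num)).1 h3

end Pool.Agent.NH3.FK
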