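import Pool.Agent.NH3.FK.Quad
import Pool.Agent.NH3.FK.Bil

/-!
# Products of primes from arbitrary sparse sets: the uniform law, general kinds and general properties

All colourings of the set of primes by the indices are used to reduce to disjoint sets.
-/

set_option autoImplicit false
set_option linter.unusedSectionVars false
set_option linter.unusedVariables false

open scoped Classical

namespace Pool.Agent.NH3.FK.G

open Finset Filter Topology
open Pool.Agent.V11291.FK
open Pool.Agent.NH3.FK (Wt bilS)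
open Pool.Agent.Y703.CQ (nr sg HB)

variable {ι : Type} [Fintype ι] [LinearOrder ι]

/-- `q` has the colour `i` -/
def Hc {S : Finset ℕ} (φ : S → ι) (q : ℕ) (i : ι) : Prop := ∃ h : q ∈ S, φ ⟨q, h⟩ = i

/-- the number of the colourings with given values on a tuple -/
theorem card_col {S : Finset ℕ} {p : ι → ℕ} (hp : Function.Injective p) (hS : ∀ i, p i ∈ S) :
    (univ.filter fun φ : S → ι => ∀ i, Hc φ (p i) i).card * Fintype.card ι ^ Fintype.card ι =
      Fintype.card ι ^ S.card := by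
  set p' : ι → S := fun i => ⟨p i, hS i⟩ with hp'
  have hinj : Function.Injective p' := fun i j h => hp (congrArg Subtype.val h)
  set R : Finset S := univ.image p' with hR
  have hRc : R.card = Fintype.card ι := by
    rw [hR, Finset.card_image_of_injective _ hinj, Finset.card_univ]
  set F : S → Finset ι := fun u => if u ∈ R then univ.filter (fun i => p' i = u) else univ with hF
  have h1 : (univ.filter fun φ : S → ι => ∀ i, Hc φ (p i) i) = Fintype.piFinset F := by
    ext φ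
    rw [Finset.mem_filter, Fintype.mem_piFinset]
    constructor
    · rintro ⟨-, h⟩ u
      rw [hF]
      simp only
      by_cases hu : u ∈ R
      · rw [if_pos hu, Finset.mem_filter]
        obtain ⟨i, -, rfl⟩ := Finset.mem_image.1 hu
        obtain ⟨_, h2⟩ := h i
        refine ⟨mem_univ _, ?_⟩
        have h3 : φ (p' i) = i := h2
        rw [h3]
      · rw [if_neg hu]
        exact mem_univ _
    · intro h
      refine ⟨mem_univ _, fun i => ⟨hS i, ?_⟩⟩
      have h2 := h (p' i)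
      rw [hF] at h2
      simp only at h2
      rw [if_pos (Finset.mem_image_of_mem _ (mem_univ i)), Finset.mem_filter] at h2
      exact hinj h2.2
  have h2 : ∀ u : S, (F u).card = if u ∈ R then 1 else Fintype.card ι := by
    intro u
    rw [hF]
    simp only
    by_cases hu : u ∈ R
    · rw [if_pos hu, if_pos hu]
      obtain ⟨i, -, hi⟩ := Finset.mem_image.1 hu
      rw [Finset.card_eq_one]
      refine ⟨i, ?_⟩
      ext j
      rw [Finset.mem_filter, Finset.mem_singleton]
      constructor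
      · rintro ⟨-, h⟩
        exact hinj (h.trans hi.symm)
      · rintro rfl
        exact ⟨mem_univ _, hi⟩
    · rw [if_neg hu, if_neg hu, Finset.card_univ]
  rw [h1, Fintype.card_piFinset, Finset.prod_congr rfl fun u _ => h2 u, Finset.prod_ite,
    Finset.prod_const_one, one_mul, Finset.prod_const]
  rw [← pow_add]
  congr 1
  have h3 : (univ.filter fun u : S => ¬ u ∈ R).card + R.card = S.card := by
    have h4 := Finset.card_filter_add_card_filter_not (s := (univ : Finset S)) (fun u => u ∈ R)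
    rw [Finset.card_univ, Fintype.card_coe] at h4
    have h5 : (univ.filter fun u : S => u ∈ R) = R := by
      ext u
      simp
    rw [h5] at h4
    omega
  rw [← hRc]
  exact h3

/-- the tuples of elements of `S` with prescribed kinds -/
noncomputable def Tp (cl : ℕ → ℕ) (S : Finset ℕ) (τ : ι → ℕ) : Finset (ι → ℕ) :=
  Fintype.piFinset fun i => S.filter fun q => cl q = τ i

/-- the tuples of different elements of `S` with prescribed kinds -/
noncomputable def Tq (cl : ℕ → ℕ) (S : Finset ℕ) (τ : ι → ℕ) : Finset (ι → ℕ) :=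
  (Tp cl S τ).filter Function.Injective

theorem mem_Tp {cl : ℕ → ℕ} {S : Finset ℕ} {τ : ι → ℕ} {p : ι → ℕ} :
    p ∈ Tp cl S τ ↔ ∀ i, p i ∈ S ∧ cl (p i) = τ i := by
  unfold Tp
  rw [Fintype.mem_piFinset]
  simp only [Finset.mem_filter]

theorem mem_Tq {cl : ℕ → ℕ} {S : Finset ℕ} {τ : ι → ℕ} {p : ι → ℕ} :
    p ∈ Tq cl S τ ↔ (∀ i, p i ∈ S ∧ cl (p i) = τ i) ∧ Function.Injective p := by
  unfold Tq
  rw [Finset.mem_filter, mem_Tp]

/-- at least half of the tuples are injective, if there are many primes of each kind -/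
theorem Tq_low {cl : ℕ → ℕ} {S : Finset ℕ} {τ : ι → ℕ} {n : ℕ}
    (hn : ∀ i, n ≤ (S.filter fun q => cl q = τ i).card) (h2 : 2 * Fintype.card ι ^ 2 ≤ n)
    (h0 : 0 < n) : (Tp cl S τ).card ≤ 2 * (Tq cl S τ).card := by
  set E : ι × ι → Finset (ι → ℕ) := fun e => (Tp cl S τ).filter fun p => p e.1 = p e.2 with hE
  have h1 : ∀ e ∈ (univ : Finset (ι × ι)).filter (fun e => e.1 ≠ e.2),
      n * (E e).card ≤ (Tp cl S τ).card := by
    intro e he
    rw [mem_filter] at he
    have h3 : (E e).card * (S.filter fun q => cl q = τ e.1).card ≤ (Tp cl S τ).card := by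
      rw [← Finset.card_product]
      refine Finset.card_le_card_of_injOn (fun x => Function.update x.1 e.1 x.2) ?_ ?_
      · intro x hx
        rw [mem_coe, Finset.mem_product, hE] at hx
        simp only [Finset.mem_filter] at hx
        obtain ⟨⟨h4, -⟩, h5, h6⟩ := hx
        rw [mem_Tp] at h4
        rw [mem_coe, mem_Tp]
        intro i
        show Function.update x.1 e.1 x.2 i ∈ S ∧ cl (Function.update x.1 e.1 x.2 i) = τ i
        by_cases hi : i = e.1
        · subst hi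
          rw [Function.update_self]
          exact ⟨h5, h6⟩
        · rw [Function.update_of_ne hi]
          exact h4 i
      · intro x hx y hy hxy
        rw [mem_coe, Finset.mem_product, hE] at hx hy
        simp only [Finset.mem_filter] at hx hy
        simp only at hxy
        have h4 : ∀ k, k ≠ e.1 → x.1 k = y.1 k := by
          intro k hk
          have := congrFun hxy k
          rwa [Function.update_of_ne hk, Function.update_of_ne hk] at this
        have h5 : x.2 = y.2 := by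
          have := congrFun hxy e.1
          rwa [Function.update_self, Function.update_self] at this
        refine Prod.ext (funext fun k => ?_) h5
        by_cases hk : k = e.1
        · subst hk
          rw [hx.1.2, hy.1.2]
          exact h4 _ (Ne.symm he.2)
        · exact h4 k hk
    calc n * (E e).card ≤ (S.filter fun q => cl q = τ e.1).card * (E e).card :=
          Nat.mul_le_mul_right _ (hn _)
      _ ≤ _ := by rw [mul_comm]; exact h3
  have h3 : Tp cl S τ ⊆
      Tq cl S τ ∪ ((univ : Finset (ι × ι)).filter (fun e => e.1 ≠ e.2)).biUnion E := by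
    intro p hp
    rw [Finset.mem_union]
    by_cases hi : Function.Injective p
    · left
      unfold Tq
      rw [Finset.mem_filter]
      exact ⟨hp, hi⟩
    · right
      unfold Function.Injective at hi
      push Not at hi
      obtain ⟨i, j, hij, hne⟩ := hi
      rw [Finset.mem_biUnion]
      refine ⟨(i, j), ?_, ?_⟩
      · rw [mem_filter]
        exact ⟨mem_univ _, hne⟩
      · rw [hE]
        simp only [Finset.mem_filter]
        exact ⟨hp, hij⟩
  have h4 := (Finset.card_le_card h3).trans (Finset.card_union_le _ _)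
  have h5 : n * (((univ : Finset (ι × ι)).filter (fun e => e.1 ≠ e.2)).biUnion E).card ≤
      Fintype.card ι ^ 2 * (Tp cl S τ).card := by
    calc n * (((univ : Finset (ι × ι)).filter (fun e => e.1 ≠ e.2)).biUnion E).card
        ≤ n * ∑ e ∈ (univ : Finset (ι × ι)).filter (fun e => e.1 ≠ e.2), (E e).card :=
          Nat.mul_le_mul_left _ Finset.card_biUnion_le
      _ = ∑ e ∈ (univ : Finset (ι × ι)).filter (fun e => e.1 ≠ e.2), n * (E e).card := by
          rw [Finset.mul_sum]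
      _ ≤ ∑ _e ∈ (univ : Finset (ι × ι)).filter (fun e => e.1 ≠ e.2), (Tp cl S τ).card :=
          Finset.sum_le_sum h1
      _ = ((univ : Finset (ι × ι)).filter (fun e => e.1 ≠ e.2)).card * (Tp cl S τ).card := by
          rw [Finset.sum_const, smul_eq_mul]
      _ ≤ _ := by
          refine Nat.mul_le_mul_right _ ?_
          refine (Finset.card_filter_le _ _).trans ?_
          rw [Finset.card_univ, Fintype.card_prod, sq]
  have h6 : 2 * Fintype.card ι ^ 2 * (Tp cl S τ).card ≤ n * (Tp cl S τ).card :=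
    Nat.mul_le_mul_right _ h2
  have h7 : n * (Tp cl S τ).card ≤
      n * (Tq cl S τ).card + Fintype.card ι ^ 2 * (Tp cl S τ).card := by
    have h8 := Nat.mul_le_mul_left n h4
    rw [mul_add] at h8
    omega
  have h9 : n * (Tp cl S τ).card ≤ n * (2 * (Tq cl S τ).card) := by nlinarith
  exact Nat.le_of_mul_le_mul_left h9 h0

/-- the set for the index `i` -/
noncomputable def Cc (cl : ℕ → ℕ) {S : Finset ℕ} (τ : ι → ℕ) (φ : S → ι) (i : ι) : Finset ℕ :=
  S.filter fun q => cl q = τ i ∧ Hc φ q i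

/-- from the colourings to the tuples -/
theorem tup_col {cl : ℕ → ℕ} {S : Finset ℕ} {τ : ι → ℕ} (G : (ι → ℕ) → Prop) {α E : ℝ}
    (hι : 0 < Fintype.card ι)
    (hone : ∀ φ : S → ι, |(((Fintype.piFinset (Cc cl τ φ)).filter G).card : ℝ) -
        α * ((Fintype.piFinset (Cc cl τ φ)).card : ℝ)| ≤ E) :
    |(((Tq cl S τ).filter G).card : ℝ) - α * ((Tq cl S τ).card : ℝ)| ≤
      (Fintype.card ι : ℝ) ^ Fintype.card ι * E := by
  set n := Fintype.card ι with hn
  set T := Tq cl S τ with hT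
  -- the sum over the colourings
  have hcount : ∀ Q : (ι → ℕ) → Prop,
      (∑ φ : S → ι, (((Fintype.piFinset (Cc cl τ φ)).filter Q).card : ℝ)) * (n : ℝ) ^ n =
        ((T.filter Q).card : ℝ) * (n : ℝ) ^ S.card := by
    intro Q
    have h1 : ∀ φ : S → ι, (Fintype.piFinset (Cc cl τ φ)).filter Q =
        (T.filter Q).bipartiteAbove (fun (φ : S → ι) p => ∀ i, Hc φ (p i) i) φ := by
      intro φ
      ext p
      rw [Finset.mem_bipartiteAbove, Finset.mem_filter, Finset.mem_filter, Fintype.mem_piFinset, hT,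
        mem_Tq]
      unfold Cc
      simp only [Finset.mem_filter]
      constructor
      · rintro ⟨h2, h3⟩
        refine ⟨⟨⟨fun i => ⟨(h2 i).1, (h2 i).2.1⟩, ?_⟩, h3⟩, fun i => (h2 i).2.2⟩
        intro i j hij
        obtain ⟨k1, e1⟩ := (h2 i).2.2
        obtain ⟨k2, e2⟩ := (h2 j).2.2
        rw [← e1, ← e2]
        congr 1
        exact Subtype.ext hij
      · rintro ⟨⟨⟨h2, h3⟩, h4⟩, h5⟩
        exact ⟨fun i => ⟨(h2 i).1, (h2 i).2, h5 i⟩, h4⟩
    have h2 := Finset.sum_card_bipartiteAbove_eq_sum_card_bipartiteBelow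
      (s := (univ : Finset (S → ι))) (t := T.filter Q) (fun (φ : S → ι) p => ∀ i, Hc φ (p i) i)
    have h3 : ∀ p ∈ T.filter Q, (((univ : Finset (S → ι)).bipartiteBelow
        (fun (φ : S → ι) p => ∀ i, Hc φ (p i) i) p).card : ℝ) * (n : ℝ) ^ n = (n : ℝ) ^ S.card := by
      intro p hp
      rw [Finset.mem_filter, hT, mem_Tq] at hp
      have h4 := card_col (ι := ι) (S := S) hp.1.2 fun i => (hp.1.1 i).1
      have h5 : (univ : Finset (S → ι)).bipartiteBelow
          (fun (φ : S → ι) p => ∀ i, Hc φ (p i) i) p =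
          univ.filter fun φ : S → ι => ∀ i, Hc φ (p i) i := rfl
      rw [h5]
      exact_mod_cast h4
    have h4 : (∑ φ : S → ι, (((Fintype.piFinset (Cc cl τ φ)).filter Q).card : ℝ)) =
        ∑ p ∈ T.filter Q, (((univ : Finset (S → ι)).bipartiteBelow
          (fun (φ : S → ι) p => ∀ i, Hc φ (p i) i) p).card : ℝ) := by
      rw [Finset.sum_congr rfl fun φ _ => by rw [h1 φ]]
      exact_mod_cast h2
    rw [h4, Finset.sum_mul, Finset.sum_congr rfl h3, Finset.sum_const, nsmul_eq_mul]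
  have hc1 := hcount G
  have hc2 := hcount fun _ => True
  simp only [Finset.filter_true] at hc2
  have hsum : |(∑ φ : S → ι, (((Fintype.piFinset (Cc cl τ φ)).filter G).card : ℝ)) -
      α * (∑ φ : S → ι, ((Fintype.piFinset (Cc cl τ φ)).card : ℝ))| ≤ (n : ℝ) ^ S.card * E := by
    rw [Finset.mul_sum, ← Finset.sum_sub_distrib]
    refine (Finset.abs_sum_le_sum_abs _ _).trans ?_
    refine (Finset.sum_le_sum fun φ _ => hone φ).trans ?_
    rw [Finset.sum_const, nsmul_eq_mul, Finset.card_univ, Fintype.card_fun, Fintype.card_coe]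
    push_cast
    exact le_rfl
  have hn0 : (0 : ℝ) < (n : ℝ) := by exact_mod_cast hι
  have hnn : (0 : ℝ) < (n : ℝ) ^ n := by positivity
  have hnS : (0 : ℝ) < (n : ℝ) ^ S.card := by positivity
  have key : |((T.filter G).card : ℝ) - α * (T.card : ℝ)| * (n : ℝ) ^ S.card ≤
      (n : ℝ) ^ n * ((n : ℝ) ^ S.card * E) := by
    have e : (((T.filter G).card : ℝ) - α * (T.card : ℝ)) * (n : ℝ) ^ S.card =
        ((∑ φ : S → ι, (((Fintype.piFinset (Cc cl τ φ)).filter G).card : ℝ)) -
      α * (∑ φ : S → ι, ((Fintype.piFinset (Cc cl τ φ)).card : ℝ))) * (n : ℝ) ^ n := by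
      rw [sub_mul, sub_mul, mul_assoc, mul_assoc, hc1, hc2]
    rw [← abs_of_pos hnS, ← abs_mul, e, abs_mul, abs_of_pos hnn, abs_of_pos hnS, mul_comm]
    exact mul_le_mul_of_nonneg_left hsum hnn.le
  refine le_of_mul_le_mul_right (key.trans (le_of_eq ?_)) hnS
  ring

/-- the law in a box -/
def BoxS (B₀ : ℕ → Prop) (cl : ℕ → ℕ) (τ : ι → ℕ) (J1 : Finset ι) (G : Finset ℕ → Prop) (α : ℝ) :
    Prop := ∃ M : ℝ, 0 ≤ M ∧ ∀ (C : ι → Finset ℕ) (Xf : ι → ℕ) (κ : ℝ), 0 ≤ κ →
      (∀ i, (C i).card ≤ Xf i) → HB J1 C Xf κ → (∀ i, ∀ p ∈ C i, B₀ p ∧ cl p = τ i) →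
      (∀ i l, i ≠ l → Disjoint (C i) (C l)) →
      |(((Fintype.piFinset C).filter fun p => G (univ.image p)).card : ℝ) -
        α * ((Fintype.piFinset C).card : ℝ)| ≤ M * (κ * ∏ j, (Xf j : ℝ))

/-- **The law for the tuples.** -/
theorem tup_sparse {B₀ : ℕ → Prop} {cl : ℕ → ℕ} {τ : ι → ℕ} {J1 : Finset ι}
    {G : Finset ℕ → Prop} {α : ℝ} (h0 : 0 ≤ α) (h1 : α ≤ 1) (hB : ∀ p, B₀ p → p.Prime ∧ p ≠ 2)
    (hBox : BoxS B₀ cl τ J1 G α) (hι : 0 < Fintype.card ι) {ε : ℝ} (hε : 0 ≤ ε) :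
    ∃ C : ℝ, 0 < C ∧ ∀ (S : Finset ℕ) (X : ℕ), 1 ≤ X → (∀ p ∈ S, p ≤ X ∧ B₀ p) →
      (∀ i, (X : ℝ) ^ (2 / 3 + ε) ≤ ((S.filter fun q => cl q = τ i).card : ℝ)) →
      |(((Tq cl S τ).filter fun p => G (univ.image p)).card : ℝ) - α * ((Tq cl S τ).card : ℝ)| ≤
      C * (X : ℝ) ^ (-(ε / 2)) * ((Tq cl S τ).card : ℝ) := by
  obtain ⟨M, hM, hbox⟩ := hBox
  set n := Fintype.card ι with hn
  set C₀ : ℝ := (n : ℝ) ^ n * (M * 3) with hC₀
  have hC₀0 : 0 ≤ C₀ := by positivity
  set K : ℝ := 2 * (n : ℝ) ^ 2 + 2 with hK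
  have hK1 : 1 ≤ K := by
    have : (0 : ℝ) ≤ (n : ℝ) ^ 2 := by positivity
    linarith
  refine ⟨2 * C₀ + (K ^ (3 / 2 : ℝ)) ^ (ε / 2), by positivity, fun S X hX hS hbig => ?_⟩
  have hX0 : (0 : ℝ) < X := by exact_mod_cast hX
  have hX1 : (1 : ℝ) ≤ X := by exact_mod_cast hX
  have hT0 : (0 : ℝ) ≤ ((Tq cl S τ).card : ℝ) := by positivity
  have hx0 : (0 : ℝ) < (X : ℝ) ^ (-(ε / 2)) := by positivity
  rcases le_or_gt K ((X : ℝ) ^ (2 / 3 : ℝ)) with hKX | hKX
  · set κ : ℝ := 3 * (X : ℝ) ^ (-(ε / 2)) with hκ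
    have hκ0 : 0 ≤ κ := by positivity
    set Xf : ι → ℕ := fun i => (S.filter fun q => cl q = τ i).card with hXf
    have hTp : ((Tp cl S τ).card : ℝ) = ∏ i, (Xf i : ℝ) := by
      unfold Tp
      rw [Fintype.card_piFinset]
      push_cast
      rfl
    have hone : ∀ φ : S → ι,
        |(((Fintype.piFinset (Cc cl τ φ)).filter fun p => G (univ.image p)).card : ℝ) -
          α * ((Fintype.piFinset (Cc cl τ φ)).card : ℝ)| ≤ M * (κ * ∏ i, (Xf i : ℝ)) := by
      intro φ
      have hmem : ∀ i, ∀ q ∈ Cc cl τ φ i, q ∈ S ∧ cl q = τ i ∧ Hc φ q i := by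
        intro i q hq
        unfold Cc at hq
        rwa [Finset.mem_filter] at hq
      have hdis : ∀ i l, i ≠ l → Disjoint (Cc cl τ φ i) (Cc cl τ φ l) := by
        intro i l hil
        rw [Finset.disjoint_left]
        intro q hq hq'
        obtain ⟨_, h1⟩ := (hmem i q hq).2.2
        obtain ⟨_, h2⟩ := (hmem l q hq').2.2
        exact hil (h1.symm.trans h2)
      have hpr : ∀ i, ∀ q ∈ Cc cl τ φ i, q.Prime ∧ q ≠ 2 ∧ q ≤ X := by
        intro i q hq
        have h3 := hS q (hmem i q hq).1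
        exact ⟨(hB q h3.2).1, (hB q h3.2).2, h3.1⟩
      have hcard : ∀ i, (Cc cl τ φ i).card ≤ Xf i := by
        intro i
        refine Finset.card_le_card fun q hq => ?_
        obtain ⟨h1, h2, -⟩ := hmem i q hq
        exact Finset.mem_filter.2 ⟨h1, h2⟩
      exact hbox (Cc cl τ φ) Xf κ hκ0 hcard
        (fun i l hil hi c d hc hd => bilS hX (hpr i) (hpr l)
          (hdis i l hil) c d hc hd hε (hcard i) (hcard l) (hbig i) (hbig l))
        (fun i q hq => ⟨(hS q (hmem i q hq).1).2, (hmem i q hq).2.1⟩) hdis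
    have h2 := tup_col (fun p => G (univ.image p)) hι hone
    have h3 : ((Tp cl S τ).card : ℝ) ≤ 2 * ((Tq cl S τ).card : ℝ) := by
      have h3 : ∀ i, 2 * Fintype.card ι ^ 2 + 1 ≤ (S.filter fun q => cl q = τ i).card := by
        intro i
        have h4 : K ≤ ((S.filter fun q => cl q = τ i).card : ℝ) := by
          refine (hKX.trans ?_).trans (hbig i)
          exact Real.rpow_le_rpow_of_exponent_le hX1 (by linarith)
        have h5 : ((2 * Fintype.card ι ^ 2 + 1 : ℕ) : ℝ) ≤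
            ((S.filter fun q => cl q = τ i).card : ℝ) := by
          push_cast
          linarith
        exact_mod_cast h5
      exact_mod_cast Tq_low h3 (by omega) (by omega)
    refine h2.trans ?_
    have h4 : (n : ℝ) ^ n * (M * (κ * ∏ i, (Xf i : ℝ))) =
        C₀ * (X : ℝ) ^ (-(ε / 2)) * ((Tp cl S τ).card : ℝ) := by
      rw [hTp, hκ, hC₀]
      ring
    rw [← hn, h4]
    have h5 : C₀ * (X : ℝ) ^ (-(ε / 2)) * ((Tp cl S τ).card : ℝ) ≤
        C₀ * (X : ℝ) ^ (-(ε / 2)) * (2 * ((Tq cl S τ).card : ℝ)) :=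
      mul_le_mul_of_nonneg_left h3 (by positivity)
    have h6 : 0 ≤ (K ^ (3 / 2 : ℝ)) ^ (ε / 2) * (X : ℝ) ^ (-(ε / 2)) * ((Tq cl S τ).card : ℝ) := by
      positivity
    nlinarith
  · have h2 : |(((Tq cl S τ).filter fun p => G (univ.image p)).card : ℝ) -
        α * ((Tq cl S τ).card : ℝ)| ≤ ((Tq cl S τ).card : ℝ) := by
      have a1 : (((Tq cl S τ).filter fun p => G (univ.image p)).card : ℝ) ≤
          ((Tq cl S τ).card : ℝ) := by
        exact_mod_cast Finset.card_filter_le _ _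
      have a2 : (0 : ℝ) ≤ (((Tq cl S τ).filter fun p => G (univ.image p)).card : ℝ) := by
        positivity
      rw [abs_le]
      constructor
      · nlinarith
      · nlinarith
    refine h2.trans ?_
    have h2 : (1 : ℝ) ≤ (K ^ (3 / 2 : ℝ)) ^ (ε / 2) * (X : ℝ) ^ (-(ε / 2)) := by
      have h3 : (X : ℝ) ≤ K ^ (3 / 2 : ℝ) := by
        have h4 : ((X : ℝ) ^ (2 / 3 : ℝ)) ^ (3 / 2 : ℝ) ≤ K ^ (3 / 2 : ℝ) :=
          Real.rpow_le_rpow (by positivity) hKX.le (by norm_num)
        rw [← Real.rpow_mul hX0.le] at h4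
        norm_num at h4
        exact h4
      have h4 : (X : ℝ) ^ (ε / 2) ≤ (K ^ (3 / 2 : ℝ)) ^ (ε / 2) :=
        Real.rpow_le_rpow hX0.le h3 (by linarith)
      have h5 : (X : ℝ) ^ (ε / 2) * (X : ℝ) ^ (-(ε / 2)) = 1 := by
        rw [← Real.rpow_add hX0]
        simp
      calc (1 : ℝ) = (X : ℝ) ^ (ε / 2) * (X : ℝ) ^ (-(ε / 2)) := h5.symm
        _ ≤ _ := mul_le_mul_of_nonneg_right h4 hx0.le
    have h6 : 0 ≤ 2 * C₀ * (X : ℝ) ^ (-(ε / 2)) * ((Tq cl S τ).card : ℝ) := by positivity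
    nlinarith

/-- **The law for the sets.** -/
theorem set_sparse {B₀ : ℕ → Prop} {cl : ℕ → ℕ} {τ : ι → ℕ} {J1 : Finset ι}
    {G : Finset ℕ → Prop} {α : ℝ} (h0 : 0 ≤ α) (h1 : α ≤ 1) (hB : ∀ p, B₀ p → p.Prime ∧ p ≠ 2)
    (hBox : BoxS B₀ cl τ J1 G α) (hι : 0 < Fintype.card ι) {ε : ℝ} (hε : 0 ≤ ε) :
    ∃ C : ℝ, 0 < C ∧ ∀ (A : Finset ℕ) (X : ℕ), 1 ≤ X → (∀ p ∈ A, p ≤ X) →
      (∀ i, (X : ℝ) ^ (2 / 3 + ε) ≤ ((A.filter fun q => B₀ q ∧ cl q = τ i).card : ℝ)) →
      |(((FW (fun p => p ∈ A ∧ B₀ p) cl τ Wt (X ^ Fintype.card ι)).filter G).card : ℝ) -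
        α * ((FW (fun p => p ∈ A ∧ B₀ p) cl τ Wt (X ^ Fintype.card ι)).card : ℝ)| ≤
      C * (X : ℝ) ^ (-(ε / 2)) *
        ((FW (fun p => p ∈ A ∧ B₀ p) cl τ Wt (X ^ Fintype.card ι)).card : ℝ) := by
  obtain ⟨C, hC, h⟩ := tup_sparse h0 h1 hB hBox hι hε
  refine ⟨C, hC, fun A X hX hA hbig => ?_⟩
  have hB' : ∀ p, p ∈ A ∧ B₀ p → p.Prime := fun p hp => (hB p hp.2).1
  have h2 := h (A.filter B₀) X hX (fun p hp => by
    rw [Finset.mem_filter] at hp
    exact ⟨hA p hp.1, hp.2⟩) (fun i => by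
    rw [Finset.filter_filter]
    exact hbig i)
  have hTq : TW (fun p => p ∈ A ∧ B₀ p) cl τ Wt (X ^ Fintype.card ι) =
      Tq cl (A.filter B₀) τ := by
    ext p
    rw [mem_TW hB', mem_Tq]
    constructor
    · rintro ⟨⟨h3, h4, -⟩, -⟩
      exact ⟨fun i => ⟨Finset.mem_filter.2 (h3 i).1, (h3 i).2⟩, h4⟩
    · rintro ⟨h3, h4⟩
      refine ⟨⟨fun i => ⟨Finset.mem_filter.1 (h3 i).1, (h3 i).2⟩, h4, ?_⟩, trivial⟩
      have h5 : ∏ i, p i ≤ ∏ _i : ι, X := Finset.prod_le_prod' fun i _ =>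
        hA _ (Finset.mem_filter.1 (h3 i).1).1
      rw [Finset.prod_const, Finset.card_univ] at h5
      exact h5
  rw [← hTq] at h2
  obtain ⟨m, hm, hcc⟩ := card_propG (τ := τ) (cl := cl) hB' Wt (X ^ Fintype.card ι)
  have e1 := hcc G
  have e2 := hcc fun _ => True
  rw [Finset.filter_true, Finset.filter_true] at e2
  rw [e1, e2] at h2
  have hm1 : (0 : ℝ) < m := by exact_mod_cast hm
  push_cast at h2
  refine le_of_mul_le_mul_left ?_ hm1
  have e3 : (m : ℝ) * (((FW (fun p => p ∈ A ∧ B₀ p) cl τ Wt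
      (X ^ Fintype.card ι)).filter G).card : ℝ) -
      α * ((m : ℝ) * ((FW (fun p => p ∈ A ∧ B₀ p) cl τ Wt (X ^ Fintype.card ι)).card : ℝ)) =
      m * ((((FW (fun p => p ∈ A ∧ B₀ p) cl τ Wt (X ^ Fintype.card ι)).filter G).card : ℝ) -
      α * ((FW (fun p => p ∈ A ∧ B₀ p) cl τ Wt (X ^ Fintype.card ι)).card : ℝ)) := by
    ring
  rw [e3, abs_mul, abs_of_pos hm1] at h2
  refine h2.trans (le_of_eq ?_)
  ring

end Pool.Agent.NH3.FK.G
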