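import Pool.Agent.NH3.FK.Gen2
import Pool.Agent.R338.EQ.Gra

/-!
# The graph of the quadratic symbols of a tuple of primes from arbitrary sparse sets

For sets `P_1, ..., P_n` of primes `1` modulo `4` not exceeding `X`, each with at least `X ^ (2/3 + ε)`
elements and otherwise arbitrary, the graph of the mutual nonresidues of a tuple of different primes
`p_i ∈ P_i` is uniformly distributed among all labelled graphs, jointly with any labels of the primes.
-/

set_option autoImplicit false
set_option linter.unusedSectionVars false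
set_option linter.unusedVariables false

open scoped Classical

namespace Pool.Agent.NH3.FK.Gr

open Finset Function
open Pool.Agent.NH3.FK.G (Hc card_col)
open Pool.Agent.Y703.CQ (nr sg HB S_EQ prs)
open Pool.Agent.R338.EQ (symG toG toG_nr)

section gen

variable {ι : Type} [Fintype ι] [LinearOrder ι]

/-- the tuples of different numbers, the `i`-th one in `P i` -/
noncomputable def Tup (P : ι → Finset ℕ) : Finset (ι → ℕ) :=
  (Fintype.piFinset P).filter Injective

theorem mem_Tup {P : ι → Finset ℕ} {p : ι → ℕ} : p ∈ Tup P ↔ (∀ i, p i ∈ P i) ∧ Injective p := by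
  unfold Tup
  rw [mem_filter, Fintype.mem_piFinset]

/-- the set for the index `i` -/
noncomputable def Cc (P : ι → Finset ℕ) {S : Finset ℕ} (φ : S → ι) (i : ι) : Finset ℕ :=
  (P i).filter fun q => Hc φ q i

/-- from the colourings to the tuples -/
theorem tup_col {P : ι → Finset ℕ} {S : Finset ℕ} (hsub : ∀ i, P i ⊆ S) (G : (ι → ℕ) → Prop)
    {α E : ℝ} (hι : 0 < Fintype.card ι)
    (hone : ∀ φ : S → ι, |(((Fintype.piFinset (Cc P φ)).filter G).card : ℝ) -
        α * ((Fintype.piFinset (Cc P φ)).card : ℝ)| ≤ E) :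
    |(((Tup P).filter G).card : ℝ) - α * ((Tup P).card : ℝ)| ≤
      (Fintype.card ι : ℝ) ^ Fintype.card ι * E := by
  set n := Fintype.card ι with hn
  set T := Tup P with hT
  have hcount : ∀ Q : (ι → ℕ) → Prop,
      (∑ φ : S → ι, (((Fintype.piFinset (Cc P φ)).filter Q).card : ℝ)) * (n : ℝ) ^ n =
        ((T.filter Q).card : ℝ) * (n : ℝ) ^ S.card := by
    intro Q
    have h1 : ∀ φ : S → ι, (Fintype.piFinset (Cc P φ)).filter Q =
        (T.filter Q).bipartiteAbove (fun (φ : S → ι) p => ∀ i, Hc φ (p i) i) φ := by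
      intro φ
      ext p
      rw [Finset.mem_bipartiteAbove, Finset.mem_filter, Finset.mem_filter, Fintype.mem_piFinset, hT,
        mem_Tup]
      unfold Cc
      simp only [Finset.mem_filter]
      constructor
      · rintro ⟨h2, h3⟩
        refine ⟨⟨⟨fun i => (h2 i).1, ?_⟩, h3⟩, fun i => (h2 i).2⟩
        intro i j hij
        obtain ⟨k1, e1⟩ := (h2 i).2
        obtain ⟨k2, e2⟩ := (h2 j).2
        rw [← e1, ← e2]
        congr 1
        exact Subtype.ext hij
      · rintro ⟨⟨⟨h2, h3⟩, h4⟩, h5⟩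
        exact ⟨fun i => ⟨h2 i, h5 i⟩, h4⟩
    have h2 := Finset.sum_card_bipartiteAbove_eq_sum_card_bipartiteBelow
      (s := (univ : Finset (S → ι))) (t := T.filter Q) (fun (φ : S → ι) p => ∀ i, Hc φ (p i) i)
    have h3 : ∀ p ∈ T.filter Q, (((univ : Finset (S → ι)).bipartiteBelow
        (fun (φ : S → ι) p => ∀ i, Hc φ (p i) i) p).card : ℝ) * (n : ℝ) ^ n = (n : ℝ) ^ S.card := by
      intro p hp
      rw [Finset.mem_filter, hT, mem_Tup] at hp
      have h4 := card_col (ι := ι) (S := S) hp.1.2 fun i => hsub i (hp.1.1 i)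
      have h5 : (univ : Finset (S → ι)).bipartiteBelow
          (fun (φ : S → ι) p => ∀ i, Hc φ (p i) i) p =
          univ.filter fun φ : S → ι => ∀ i, Hc φ (p i) i := rfl
      rw [h5]
      exact_mod_cast h4
    have h4 : (∑ φ : S → ι, (((Fintype.piFinset (Cc P φ)).filter Q).card : ℝ)) =
        ∑ p ∈ T.filter Q, (((univ : Finset (S → ι)).bipartiteBelow
          (fun (φ : S → ι) p => ∀ i, Hc φ (p i) i) p).card : ℝ) := by
      rw [Finset.sum_congr rfl fun φ _ => by rw [h1 φ]]
      exact_mod_cast h2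
    rw [h4, Finset.sum_mul, Finset.sum_congr rfl h3, Finset.sum_const, nsmul_eq_mul]
  have hc1 := hcount G
  have hc2 := hcount fun _ => True
  simp only [Finset.filter_true] at hc2
  have hsum : |(∑ φ : S → ι, (((Fintype.piFinset (Cc P φ)).filter G).card : ℝ)) -
      α * (∑ φ : S → ι, ((Fintype.piFinset (Cc P φ)).card : ℝ))| ≤ (n : ℝ) ^ S.card * E := by
    rw [Finset.mul_sum, ← Finset.sum_sub_distrib]
    refine (Finset.abs_sum_le_sum_abs _ _).trans ?_
    refine (Finset.sum_le_sum fun φ _ => hone φ).trans ?_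
    rw [Finset.sum_const, nsmul_eq_mul, Finset.card_univ, Fintype.card_fun, Fintype.card_coe]
    push_cast
    exact le_rfl
  have hn0 : (0 : ℝ) < (n : ℝ) := by exact_mod_cast hι
  have hnn : (0 : ℝ) < (n : ℝ) ^ n := by positivity
  have hnS : (0 : ℝ) < (n : ℝ) ^ S.card := by positivity
  have key : |((T.filter G).card : ℝ) - α * (T.card : ℝ)| * (n : ℝ) ^ S.card ≤
      (n : ℝ) ^ n * ((n : ℝ) ^ S.card * E) := by
    have e : (((T.filter G).card : ℝ) - α * (T.card : ℝ)) * (n : ℝ) ^ S.card =
        ((∑ φ : S → ι, (((Fintype.piFinset (Cc P φ)).filter G).card : ℝ)) -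
      α * (∑ φ : S → ι, ((Fintype.piFinset (Cc P φ)).card : ℝ))) * (n : ℝ) ^ n := by
      rw [sub_mul, sub_mul, mul_assoc, mul_assoc, hc1, hc2]
    rw [← abs_of_pos hnS, ← abs_mul, e, abs_mul, abs_of_pos hnn, abs_of_pos hnS, mul_comm]
    exact mul_le_mul_of_nonneg_left hsum hnn.le
  refine le_of_mul_le_mul_right (key.trans (le_of_eq ?_)) hnS
  ring

/-- at least half of the tuples are injective, if the sets are large -/
theorem Tup_low {P : ι → Finset ℕ} {n : ℕ} (hn : ∀ i, n ≤ (P i).card)
    (h2 : 2 * Fintype.card ι ^ 2 ≤ n) (h0 : 0 < n) :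
    (Fintype.piFinset P).card ≤ 2 * (Tup P).card := by
  set E : ι × ι → Finset (ι → ℕ) := fun e => (Fintype.piFinset P).filter fun p => p e.1 = p e.2 with hE
  have h1 : ∀ e ∈ (univ : Finset (ι × ι)).filter (fun e => e.1 ≠ e.2),
      n * (E e).card ≤ (Fintype.piFinset P).card := by
    intro e he
    rw [mem_filter] at he
    have h3 : (E e).card * (P e.1).card ≤ (Fintype.piFinset P).card := by
      rw [← Finset.card_product]
      refine Finset.card_le_card_of_injOn (fun x => Function.update x.1 e.1 x.2) ?_ ?_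
      · intro x hx
        rw [mem_coe, Finset.mem_product, hE] at hx
        simp only [Finset.mem_filter] at hx
        obtain ⟨⟨h4, -⟩, h5⟩ := hx
        rw [Fintype.mem_piFinset] at h4
        rw [mem_coe, Fintype.mem_piFinset]
        intro i
        show Function.update x.1 e.1 x.2 i ∈ P i
        by_cases hi : i = e.1
        · subst hi
          rw [Function.update_self]
          exact h5
        · rw [Function.update_of_ne hi]
          exact h4 i
      · intro x hx y hy hxy
        rw [mem_coe, Finset.mem_product, hE] at hx hy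
        simp only [Finset.mem_filter] at hx hy
        simp only at hxy
        have h4 : ∀ k, k ≠ e.1 → x.1 k = y.1 k := by
          intro k hk
          have := congrFun hxy k
          rwa [Function.update_of_ne hk, Function.update_of_ne hk] at this
        have h5 : x.2 = y.2 := by
          have := congrFun hxy e.1
          rwa [Function.update_self, Function.update_self] at this
        refine Prod.ext (funext fun k => ?_) h5
        by_cases hk : k = e.1
        · subst hk
          rw [hx.1.2, hy.1.2]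
          exact h4 _ (Ne.symm he.2)
        · exact h4 k hk
    calc n * (E e).card ≤ (P e.1).card * (E e).card :=
          Nat.mul_le_mul_right _ (hn _)
      _ ≤ _ := by rw [mul_comm]; exact h3
  have h3 : Fintype.piFinset P ⊆
      Tup P ∪ ((univ : Finset (ι × ι)).filter (fun e => e.1 ≠ e.2)).biUnion E := by
    intro p hp
    rw [Finset.mem_union]
    by_cases hi : Function.Injective p
    · left
      unfold Tup
      rw [Finset.mem_filter]
      exact ⟨hp, hi⟩
    · right
      unfold Function.Injective at hi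
      push Not at hi
      obtain ⟨i, j, hij, hne⟩ := hi
      rw [Finset.mem_biUnion]
      refine ⟨(i, j), ?_, ?_⟩
      · rw [mem_filter]
        exact ⟨mem_univ _, hne⟩
      · rw [hE]
        simp only [Finset.mem_filter]
        exact ⟨hp, hij⟩
  have h4 := (Finset.card_le_card h3).trans (Finset.card_union_le _ _)
  have h5 : n * (((univ : Finset (ι × ι)).filter (fun e => e.1 ≠ e.2)).biUnion E).card ≤
      Fintype.card ι ^ 2 * (Fintype.piFinset P).card := by
    calc n * (((univ : Finset (ι × ι)).filter (fun e => e.1 ≠ e.2)).biUnion E).card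
        ≤ n * ∑ e ∈ (univ : Finset (ι × ι)).filter (fun e => e.1 ≠ e.2), (E e).card :=
          Nat.mul_le_mul_left _ Finset.card_biUnion_le
      _ = ∑ e ∈ (univ : Finset (ι × ι)).filter (fun e => e.1 ≠ e.2), n * (E e).card := by
          rw [Finset.mul_sum]
      _ ≤ ∑ _e ∈ (univ : Finset (ι × ι)).filter (fun e => e.1 ≠ e.2), (Fintype.piFinset P).card :=
          Finset.sum_le_sum h1
      _ = ((univ : Finset (ι × ι)).filter (fun e => e.1 ≠ e.2)).card * (Fintype.piFinset P).card := by
          rw [Finset.sum_const, smul_eq_mul]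
      _ ≤ _ := by
          refine Nat.mul_le_mul_right _ ?_
          refine (Finset.card_filter_le _ _).trans ?_
          rw [Finset.card_univ, Fintype.card_prod, sq]
  have h6 : 2 * Fintype.card ι ^ 2 * (Fintype.piFinset P).card ≤ n * (Fintype.piFinset P).card :=
    Nat.mul_le_mul_right _ h2
  have h7 : n * (Fintype.piFinset P).card ≤
      n * (Tup P).card + Fintype.card ι ^ 2 * (Fintype.piFinset P).card := by
    have h8 := Nat.mul_le_mul_left n h4
    rw [mul_add] at h8
    omega
  have h9 : n * (Fintype.piFinset P).card ≤ n * (2 * (Tup P).card) := by nlinarith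
  exact Nat.le_of_mul_le_mul_left h9 h0

end gen

/-- the proportion of the graphs with the property `Q` among all graphs with vertices `1, …, n` -/
noncomputable def prob {n : ℕ} (Q : SimpleGraph (Fin n) → Prop) : ℝ :=
  (Nat.card {G : SimpleGraph (Fin n) // Q G} : ℝ) / Nat.card (SimpleGraph (Fin n))

theorem prob_nonneg {n : ℕ} (Q : SimpleGraph (Fin n) → Prop) : 0 ≤ prob Q := by
  unfold prob
  positivity

theorem prob_le_one {n : ℕ} (Q : SimpleGraph (Fin n) → Prop) : prob Q ≤ 1 := by
  unfold prob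
  refine div_le_one_of_le₀ ?_ (Nat.cast_nonneg _)
  exact_mod_cast Finite.card_subtype_le Q

/-- the law for subsets of the sets, with the error measured by the sets -/
theorem law_one (hEQ : S_EQ) {n : ℕ} (hn : 0 < n) {ε : ℝ} (hε : 0 ≤ ε)
    (Q : SimpleGraph (Fin n) → Prop) {X : ℕ} (hX : 1 ≤ X) (P P' : Fin n → Finset ℕ)
    (hsub : ∀ i, P' i ⊆ P i) (hP : ∀ i, ∀ p ∈ P i, p ≤ X ∧ p.Prime ∧ p % 4 = 1)
    (hbig : ∀ i, (X : ℝ) ^ (2 / 3 + ε) ≤ ((P i).card : ℝ)) :
    |(((Tup P').filter fun p => Q (symG p)).card : ℝ) - prob Q * ((Tup P').card : ℝ)| ≤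
      (n : ℝ) ^ n * (2 ^ (prs (univ : Finset (Fin n))).card *
        (3 * (X : ℝ) ^ (-(ε / 2)) * ∏ j, ((P j).card : ℝ))) := by
  have hcn : Fintype.card (Fin n) = n := Fintype.card_fin n
  have key := tup_col (P := P') (S := univ.biUnion P')
    (fun i => Finset.subset_biUnion_of_mem P' (mem_univ i)) (fun p => Q (symG p)) (α := prob Q)
    (E := 2 ^ (prs (univ : Finset (Fin n))).card *
        (3 * (X : ℝ) ^ (-(ε / 2)) * ∏ j, ((P j).card : ℝ))) (by rw [hcn]; exact hn) ?_
  · rw [hcn] at key
    exact key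
  intro φ
  have hmem : ∀ i, ∀ q ∈ Cc P' φ i, q ∈ P i ∧ Hc φ q i := by
    intro i q hq
    unfold Cc at hq
    rw [Finset.mem_filter] at hq
    exact ⟨hsub i hq.1, hq.2⟩
  have hdis : ∀ i l, i ≠ l → Disjoint (Cc P' φ i) (Cc P' φ l) := by
    intro i l hil
    rw [Finset.disjoint_left]
    intro q hq hq'
    obtain ⟨_, h1⟩ := (hmem i q hq).2
    obtain ⟨_, h2⟩ := (hmem l q hq').2
    exact hil (h1.symm.trans h2)
  have hcard : ∀ i, (Cc P' φ i).card ≤ (P i).card := fun i =>
    Finset.card_le_card fun q hq => (hmem i q hq).1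
  have hpr : ∀ i, ∀ q ∈ Cc P' φ i, q.Prime ∧ q ≠ 2 ∧ q ≤ X := by
    intro i q hq
    have h3 := hP i q (hmem i q hq).1
    refine ⟨h3.2.1, ?_, h3.1⟩
    rintro rfl
    have := h3.2.2
    omega
  have hHB : HB (univ : Finset (Fin n)) (Cc P' φ) (fun i => (P i).card)
      (3 * (X : ℝ) ^ (-(ε / 2))) := fun i l hil hi c d hc hd =>
    Pool.Agent.NH3.FK.bilS hX (hpr i) (hpr l) (hdis i l hil) c d hc hd hε (hcard i) (hcard l)
      (hbig i) (hbig l)
  have h3 := hEQ (Fin n) univ (Cc P' φ) (fun i => (P i).card) (3 * (X : ℝ) ^ (-(ε / 2)))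
    (by positivity) hcard hHB (fun α => Q (toG n α))
  have hN : (Nat.card {G : SimpleGraph (Fin n) // Q G} : ℝ) =
      ((univ.filter fun α : prs (univ : Finset (Fin n)) → ZMod 2 => Q (toG n α)).card : ℝ) := by
    rw [← Nat.card_congr ((toG n).subtypeEquiv (p := fun α => Q (toG n α)) (q := Q)
      fun _ => Iff.rfl), Nat.card_eq_fintype_card, Fintype.card_subtype]
  have hT : (Nat.card (SimpleGraph (Fin n)) : ℝ) =
      2 ^ (prs (univ : Finset (Fin n))).card := by
    rw [← Nat.card_congr (toG n), Nat.card_fun, Nat.card_eq_fintype_card,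
      Nat.card_eq_fintype_card, ZMod.card, Fintype.card_coe]
    push_cast
    rfl
  have h4 : ((Fintype.piFinset (Cc P' φ)).filter fun p => Q (symG p)) =
      ((Fintype.piFinset (Cc P' φ)).filter fun p => Q (toG n fun e => nr (p e.1.1) (p e.1.2))) := by
    refine Finset.filter_congr fun p hp => ?_
    rw [Fintype.mem_piFinset] at hp
    rw [toG_nr p fun i => ⟨(hP i _ (hmem i _ (hp i)).1).2.1, (hP i _ (hmem i _ (hp i)).1).2.2⟩]
  have h5 : (((Fintype.piFinset (Cc P' φ)).card : ℕ) : ℝ) = ∏ j, ((Cc P' φ j).card : ℝ) := by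
    rw [Fintype.card_piFinset]
    push_cast
    rfl
  rw [h4, h5]
  unfold prob
  rw [hN, hT]
  refine le_trans (le_of_eq ?_) h3
  congr!

/-- **The graph of the mutual nonresidues of the primes of a tuple from arbitrary sparse sets is
uniformly distributed, jointly with any labels of the primes.** -/
theorem graph_sparse (hEQ : S_EQ) {n : ℕ} (hn : 0 < n) {L : Type} [Fintype L] {ε : ℝ} (hε : 0 ≤ ε)
    (Q : SimpleGraph (Fin n) → (Fin n → L) → Prop) : ∃ C : ℝ, 0 < C ∧
    ∀ (f : ℕ → L) (X : ℕ) (P : Fin n → Finset ℕ), 1 ≤ X →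
      (∀ i, ∀ p ∈ P i, p ≤ X ∧ p.Prime ∧ p % 4 = 1) →
      (∀ i, (X : ℝ) ^ (2 / 3 + ε) ≤ ((P i).card : ℝ)) →
      |(((Tup P).filter fun p => Q (symG p) fun i => f (p i)).card : ℝ) -
        ∑ p ∈ Tup P, prob fun G => Q G fun i => f (p i)| ≤
      C * (X : ℝ) ^ (-(ε / 2)) * ((Tup P).card : ℝ) := by
  set θ : ℝ := 2 / 3 + ε with hθd
  have hθ : 0 < θ := by positivity
  set N : ℝ := (Fintype.card (Fin n → L) : ℝ) with hN
  have hN0 : 0 ≤ N := by positivity
  set C₀ : ℝ := N * ((n : ℝ) ^ n * (2 ^ (prs (univ : Finset (Fin n))).card * 3)) with hC₀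
  have hC₀0 : 0 ≤ C₀ := by positivity
  set K : ℝ := 2 * (n : ℝ) ^ 2 + 2 with hK
  have hK1 : 1 ≤ K := by
    have : (0 : ℝ) ≤ (n : ℝ) ^ 2 := by positivity
    linarith
  have hK0 : 0 < K := by linarith
  refine ⟨2 * C₀ + (K ^ (1 / θ)) ^ (ε / 2), by positivity, fun f X P hX hP hbig => ?_⟩
  have hX0 : (0 : ℝ) < X := by exact_mod_cast hX
  have hX1 : (1 : ℝ) ≤ X := by exact_mod_cast hX
  have hT0 : (0 : ℝ) ≤ ((Tup P).card : ℝ) := by positivity
  have hx0 : (0 : ℝ) < (X : ℝ) ^ (-(ε / 2)) := by positivity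
  rcases le_or_gt K ((X : ℝ) ^ θ) with hKX | hKX
  · -- the fibres
    have hfib : ∀ β : Fin n → L, (Tup P).filter (fun p => (fun i => f (p i)) = β) =
        Tup fun i => (P i).filter fun q => f q = β i := by
      intro β
      ext p
      rw [mem_filter, mem_Tup, mem_Tup]
      simp only [mem_filter]
      constructor
      · rintro ⟨⟨h1, h2⟩, h3⟩
        exact ⟨fun i => ⟨h1 i, congrFun h3 i⟩, h2⟩
      · rintro ⟨h1, h2⟩
        exact ⟨⟨fun i => (h1 i).1, h2⟩, funext fun i => (h1 i).2⟩
    have e1 : (((Tup P).filter fun p => Q (symG p) fun i => f (p i)).card : ℝ) =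
        ∑ β : Fin n → L, (((Tup fun i => (P i).filter fun q => f q = β i).filter
          fun p => Q (symG p) β).card : ℝ) := by
      rw [Finset.card_eq_sum_card_fiberwise (f := fun (p : Fin n → ℕ) (i : Fin n) => f (p i))
        (t := univ) (fun p _ => Finset.mem_coe.2 (Finset.mem_univ _))]
      push_cast
      refine Finset.sum_congr rfl fun β _ => ?_
      rw [← hfib, Finset.filter_filter, Finset.filter_filter]
      congr 2
      ext p
      simp only [Finset.mem_filter]
      constructor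
      · rintro ⟨h1, h2, h3⟩
        refine ⟨h1, h3, ?_⟩
        rw [← h3]
        exact h2
      · rintro ⟨h1, h2, h3⟩
        refine ⟨h1, ?_, h2⟩
        rw [← h2] at h3
        exact h3
    have e2 : ∑ p ∈ Tup P, (prob fun G => Q G fun i => f (p i)) =
        ∑ β : Fin n → L, (prob fun G => Q G β) *
          ((Tup fun i => (P i).filter fun q => f q = β i).card : ℝ) := by
      rw [← Finset.sum_fiberwise_of_maps_to (g := fun (p : Fin n → ℕ) (i : Fin n) => f (p i))
        (t := univ) (fun p _ => Finset.mem_univ _)]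
      refine Finset.sum_congr rfl fun β _ => ?_
      rw [← hfib, Finset.sum_congr rfl (g := fun _ => prob fun G => Q G β) fun p hp => by
        rw [(Finset.mem_filter.1 hp).2]]
      rw [Finset.sum_const, nsmul_eq_mul, mul_comm]
    rw [e1, e2, ← Finset.sum_sub_distrib]
    refine (Finset.abs_sum_le_sum_abs _ _).trans ?_
    refine (Finset.sum_le_sum fun β _ => law_one hEQ hn hε (fun G => Q G β) hX P
      (fun i => (P i).filter fun q => f q = β i) (fun i => Finset.filter_subset _ _) hP
      hbig).trans ?_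
    rw [Finset.sum_const, nsmul_eq_mul, Finset.card_univ]
    have h3 : ((Fintype.piFinset P).card : ℝ) ≤ 2 * ((Tup P).card : ℝ) := by
      have h3 : ∀ i, 2 * Fintype.card (Fin n) ^ 2 + 1 ≤ (P i).card := by
        intro i
        have h4 : K ≤ ((P i).card : ℝ) := hKX.trans (hbig i)
        have h5 : ((2 * Fintype.card (Fin n) ^ 2 + 1 : ℕ) : ℝ) ≤ ((P i).card : ℝ) := by
          rw [Fintype.card_fin]
          push_cast
          linarith
        exact_mod_cast h5
      exact_mod_cast Tup_low h3 (by omega) (by omega)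
    have h4 : ((Fintype.piFinset P).card : ℝ) = ∏ j, ((P j).card : ℝ) := by
      rw [Fintype.card_piFinset]
      push_cast
      rfl
    rw [← h4]
    have h5 : (Fintype.card (Fin n → L) : ℝ) * ((n : ℝ) ^ n *
        (2 ^ (prs (univ : Finset (Fin n))).card *
          (3 * (X : ℝ) ^ (-(ε / 2)) * ((Fintype.piFinset P).card : ℝ)))) =
        C₀ * (X : ℝ) ^ (-(ε / 2)) * ((Fintype.piFinset P).card : ℝ) := by
      rw [hC₀, hN]
      ring
    rw [h5]
    have h6 : C₀ * (X : ℝ) ^ (-(ε / 2)) * ((Fintype.piFinset P).card : ℝ) ≤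
        C₀ * (X : ℝ) ^ (-(ε / 2)) * (2 * ((Tup P).card : ℝ)) :=
      mul_le_mul_of_nonneg_left h3 (by positivity)
    have h7 : 0 ≤ (K ^ (1 / θ)) ^ (ε / 2) * (X : ℝ) ^ (-(ε / 2)) * ((Tup P).card : ℝ) := by
      positivity
    nlinarith
  · have h2 : |(((Tup P).filter fun p => Q (symG p) fun i => f (p i)).card : ℝ) -
        ∑ p ∈ Tup P, prob fun G => Q G fun i => f (p i)| ≤ ((Tup P).card : ℝ) := by
      have a1 : (((Tup P).filter fun p => Q (symG p) fun i => f (p i)).card : ℝ) ≤
          ((Tup P).card : ℝ) := by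
        exact_mod_cast Finset.card_filter_le _ _
      have a2 : (0 : ℝ) ≤ (((Tup P).filter fun p => Q (symG p) fun i => f (p i)).card : ℝ) := by
        positivity
      have a3 : 0 ≤ ∑ p ∈ Tup P, (prob fun G => Q G fun i => f (p i)) :=
        Finset.sum_nonneg fun p _ => prob_nonneg _
      have a4 : ∑ p ∈ Tup P, (prob fun G => Q G fun i => f (p i)) ≤ ((Tup P).card : ℝ) := by
        refine (Finset.sum_le_sum fun p _ => prob_le_one _).trans (le_of_eq ?_)
        rw [Finset.sum_const, nsmul_eq_mul, mul_one]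
      rw [abs_le]
      constructor
      · linarith
      · linarith
    refine h2.trans ?_
    have h2 : (1 : ℝ) ≤ (K ^ (1 / θ)) ^ (ε / 2) * (X : ℝ) ^ (-(ε / 2)) := by
      have h3 : (X : ℝ) ≤ K ^ (1 / θ) := by
        have h4 : ((X : ℝ) ^ θ) ^ (1 / θ) ≤ K ^ (1 / θ) :=
          Real.rpow_le_rpow (by positivity) hKX.le (by positivity)
        rw [← Real.rpow_mul hX0.le, mul_one_div_cancel hθ.ne', Real.rpow_one] at h4
        exact h4
      have h4 : (X : ℝ) ^ (ε / 2) ≤ (K ^ (1 / θ)) ^ (ε / 2) :=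
        Real.rpow_le_rpow hX0.le h3 (by positivity)
      have h5 : (X : ℝ) ^ (ε / 2) * (X : ℝ) ^ (-(ε / 2)) = 1 := by
        rw [← Real.rpow_add hX0]
        simp
      calc (1 : ℝ) = (X : ℝ) ^ (ε / 2) * (X : ℝ) ^ (-(ε / 2)) := h5.symm
        _ ≤ _ := mul_le_mul_of_nonneg_right h4 hx0.le
    have h6 : 0 ≤ 2 * C₀ * (X : ℝ) ^ (-(ε / 2)) * ((Tup P).card : ℝ) := by positivity
    nlinarith

end Pool.Agent.NH3.FK.Gr
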