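import Pool.Agent.NH3.FK.Col

/-!
# The joint law of two matrices which differ on the diagonal

The two matrices of quadratic symbols with the same entries outside of the diagonal: the limit is the
fraction of the symmetric matrices `M` over the field with two elements with prescribed
singularity or nonsingularity of `M` and of `M + diag (0, ..., 0, 1, ..., 1)`.
-/

set_option autoImplicit false
set_option linter.unusedSectionVars false
set_option linter.unusedVariables false

open scoped Classical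

namespace Pool.Agent.NH3.FK.G

open Finset Module
open Pool.Agent.V11291.FK
open Pool.Agent.Y703.CQ (nr sg HB S_SYM S_EQ prs GdA Gd Sp In)
open Pool.Agent.Y219.CQ (F Gs bf mA mC mL mZ Sy pa pa_surj bf_add bf_symm bf_single bf_apply Ns)
open Pool.Agent.Y759.CX (fr fr_equiv fr_comp)
open Pool.Agent.Y657.CQ (nr_symm HB_sub)

/-- the diagonal form -/
noncomputable def Dg {J : Type} (J1 : Finset J) (γ : J → F) : Sy (J1 → F) :=
  ⟨bf fun k l : J1 => if k = l then γ k else 0, bf_symm _ fun k l => by
    by_cases h : k = l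
    · rw [h]
    · rw [if_neg h, if_neg (Ne.symm h)]⟩

theorem Dg_add {J : Type} (J1 : Finset J) (γ γ' : J → F) :
    Dg J1 (fun k => γ k + γ' k) = Dg J1 γ + Dg J1 γ' := by
  refine Subtype.ext ?_
  show bf _ = bf _ + bf _
  rw [← bf_add]
  congr 1
  funext k l
  by_cases h : k = l
  · rw [if_pos h, if_pos h, if_pos h]
  · rw [if_neg h, if_neg h, if_neg h, add_zero]

theorem Sy_two {V : Type} [AddCommGroup V] [Module F V] (S : Sy V) : S + S = 0 := by
  refine Subtype.ext ?_
  show S.1 + S.1 = 0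
  refine LinearMap.ext fun x => LinearMap.ext fun y => ?_
  show S.1 x y + S.1 x y = 0
  exact CharTwo.add_self_eq_zero _

/-- the fraction of the symmetric forms with prescribed behaviour -/
noncomputable def ro {J : Type} (J1 : Finset J) (γ : J → F) (v w : Prop) : ℝ :=
  fr fun T : Sy (J1 → F) => (Ns T.1 ↔ v) ∧ (Ns (T + Dg J1 γ).1 ↔ w)

/-- the probability that two random symmetric completions are nonsingular -/
theorem LA2 {U J : Type} [Fintype U] [IsEmpty U] [Fintype J] [LinearOrder J]
    (U1 : Finset U) (J1 : Finset J) (hJ : ∃ l, l ∉ J1) (A : U → U → ZMod 2) (B : U → J → ZMod 2)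
    (C : J → U → ZMod 2) (f f' : U → ZMod 2) (g g' : J → ZMod 2) (v w : Prop) :
    ((univ.filter fun α : prs J1 → ZMod 2 =>
      (GdA U1 J1 A B C (Pool.Agent.Y703.CQ.ext α) f g ↔ v) ∧
      (GdA U1 J1 A B C (Pool.Agent.Y703.CQ.ext α) f' g' ↔ w)).card : ℝ) / 2 ^ (prs J1).card =
      ro J1 (fun k => g k + g' k) v w := by
  have hone : ∀ (f : U → ZMod 2) (g : J → ZMod 2) (α : prs J1 → ZMod 2),
      GdA U1 J1 A B C (Pool.Agent.Y703.CQ.ext α) f g ↔ Ns (pa J1 α + Dg J1 g).1 := by
    intro f g α
    rw [Pool.Agent.Y219.CQ.gd_iff U1 J1 A B C f g (fun u _ => isEmptyElim u)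
      (fun u _ => isEmptyElim u) α, bf_add]
    have e : (bf (mL J1 α) + bf (mZ J1 C g) : (J1 → F) →ₗ[F] (J1 → F) →ₗ[F] F) =
        (pa J1 α + Dg J1 g).1 := by
      show _ = bf (mL J1 α) + bf _
      congr 2
      funext k l
      unfold mZ
      by_cases h : k = l
      · rw [if_pos h, if_pos h, Finset.univ_eq_empty, Finset.sum_empty, zero_add]
      · rw [if_neg h, if_neg h]
    rw [e]
    unfold Gs Ns
    constructor
    · intro h x hx
      exact (h 0 x (fun x' => by
        have : x' = 0 := Subsingleton.elim _ _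
        rw [this]
        simp) (fun y' => by
        rw [map_zero, LinearMap.zero_apply, zero_add]
        exact hx y')).2
    · intro h x y _ h2
      have hx : x = 0 := Subsingleton.elim _ _
      refine ⟨hx, h y fun y' => ?_⟩
      have := h2 y'
      rw [hx, map_zero, LinearMap.zero_apply, zero_add] at this
      exact this
  unfold ro
  rw [← fr_equiv (Equiv.addRight (Dg J1 g)) (fun T : Sy (J1 → F) => (Ns T.1 ↔ v) ∧
    (Ns (T + Dg J1 fun k => g k + g' k).1 ↔ w)), ← fr_comp (pa J1) (pa_surj J1 hJ)]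
  unfold Pool.Agent.Y759.CX.fr
  have h6 : Nat.card (prs J1 → F) = 2 ^ (prs J1).card := by
    rw [Nat.card_fun, Nat.card_eq_fintype_card, Nat.card_eq_fintype_card, ZMod.card,
      Fintype.card_coe]
  rw [h6, Nat.card_eq_fintype_card, Fintype.card_subtype, Nat.cast_pow, Nat.cast_ofNat]
  congr 3
  refine Finset.filter_congr fun α _ => ?_
  rw [hone f g α, hone f' g' α]
  have e : (Equiv.addRight (Dg J1 g)) (pa J1 α) + Dg J1 (fun k => g k + g' k) =
      pa J1 α + Dg J1 g' := by
    rw [Dg_add]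
    show pa J1 α + Dg J1 g + (Dg J1 g + Dg J1 g') = _
    rw [add_assoc, ← add_assoc (Dg J1 g), Sy_two, zero_add]
  rw [e]
  exact Iff.rfl

/-- the joint property -/
def GG (f g : ℕ → ZMod 2) (v w : Prop) (S : Finset ℕ) : Prop := (Gd f S ↔ v) ∧ (Gd g S ↔ w)

/-- the fraction, in terms of matrices -/
theorem ro_mat {J κ : Type} [Fintype κ] [DecidableEq κ] (J1 : Finset J) (e : J1 ≃ κ) (γ : J → F)
    (v w : Prop) : ro J1 γ v w =
      (Nat.card {M : Matrix κ κ F // M.IsSymm ∧ (M.det ≠ 0 ↔ v) ∧
        ((M + Matrix.diagonal fun k => γ (e.symm k)).det ≠ 0 ↔ w)} : ℝ) /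
      Nat.card {M : Matrix κ κ F // M.IsSymm} := by
  let b : Basis κ F (J1 → F) := (Pi.basisFun F J1).reindex e
  have hsymm : ∀ S : (J1 → F) →ₗ[F] (J1 → F) →ₗ[F] F, S ∈ Sy (J1 → F) ↔
      ((LinearMap.BilinForm.toMatrix b).toEquiv S).IsSymm := by
    intro S
    refine Iff.trans ?_ (LinearMap.BilinForm.isSymm_toMatrix_iff_isSymm (B := S) b).symm
    exact ⟨fun h => ⟨fun x y => h x y⟩, fun h x y => h.eq x y⟩
  have hns : ∀ S : (J1 → F) →ₗ[F] (J1 → F) →ₗ[F] F, S ∈ Sy (J1 → F) → (Ns S ↔
      ((LinearMap.BilinForm.toMatrix b).toEquiv S).det ≠ 0) := by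
    intro S hS
    refine Iff.trans ?_ (LinearMap.BilinForm.nondegenerate_iff_det_ne_zero (B := S) b)
    exact ⟨fun h => ⟨h, fun y hy => h y fun x => by rw [hS]; exact hy x⟩, fun h => h.1⟩
  have hdg : (LinearMap.BilinForm.toMatrix b).toEquiv (Dg J1 γ).1 =
      Matrix.diagonal fun k => γ (e.symm k) := by
    ext i j
    show (LinearMap.BilinForm.toMatrix b) (Dg J1 γ).1 i j = _
    rw [LinearMap.BilinForm.toMatrix_apply]
    show bf (fun k l : J1 => if k = l then γ k else 0) (b i) (b j) = _
    have hb : ∀ i, b i = Pi.single (e.symm i) 1 := by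
      intro i
      show ((Pi.basisFun F J1).reindex e) i = _
      rw [Basis.reindex_apply, Pi.basisFun_apply]
    rw [hb, hb, bf_single, Matrix.diagonal_apply]
    by_cases h : i = j
    · rw [if_pos (by rw [h]), if_pos h]
    · rw [if_neg (fun h' => h (e.symm.injective h')), if_neg h]
  have e1 : Sy (J1 → F) ≃ {M : Matrix κ κ F // M.IsSymm} :=
    Equiv.subtypeEquiv (LinearMap.BilinForm.toMatrix b).toEquiv hsymm
  have e2 : {S : Sy (J1 → F) // (Ns S.1 ↔ v) ∧ (Ns (S + Dg J1 γ).1 ↔ w)} ≃
      {M : Matrix κ κ F // M.IsSymm ∧ (M.det ≠ 0 ↔ v) ∧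
        ((M + Matrix.diagonal fun k => γ (e.symm k)).det ≠ 0 ↔ w)} :=
    (Equiv.subtypeSubtypeEquivSubtypeInter (fun S => S ∈ Sy (J1 → F)) (fun S => (Ns S ↔ v) ∧
      (Ns (S + (Dg J1 γ).1) ↔ w))).trans
      (Equiv.subtypeEquiv (LinearMap.BilinForm.toMatrix b).toEquiv fun S => by
        have h0 : (LinearMap.BilinForm.toMatrix b).toEquiv (S + (Dg J1 γ).1) =
            (LinearMap.BilinForm.toMatrix b).toEquiv S +
              Matrix.diagonal fun k => γ (e.symm k) := by
          rw [← hdg]
          exact map_add (LinearMap.BilinForm.toMatrix b) _ _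
        constructor
        · rintro ⟨h1, h2, h3⟩
          refine ⟨(hsymm S).1 h1, (hns S h1).symm.trans h2, ?_⟩
          rw [← h0, ← hns _ ((Sy (J1 → F)).add_mem h1 (Dg J1 γ).2)]
          exact h3
        · rintro ⟨h1, h2, h3⟩
          have h4 := (hsymm S).2 h1
          refine ⟨h4, (hns S h4).trans h2, ?_⟩
          rw [← h0, ← hns _ ((Sy (J1 → F)).add_mem h4 (Dg J1 γ).2)] at h3
          exact h3)
  unfold ro fr
  rw [Nat.card_congr e1, Nat.card_congr e2]

theorem ro_nonneg {J : Type} (J1 : Finset J) (γ : J → F) (v w : Prop) : 0 ≤ ro J1 γ v w :=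
  Pool.Agent.Y759.CX.fr_nonneg _

theorem ro_le_one {J : Type} (J1 : Finset J) (γ : J → F) (v w : Prop) : ro J1 γ v w ≤ 1 :=
  Pool.Agent.Y759.CX.fr_le_one _

/-- only the values on `J1` matter -/
theorem ro_congr {J : Type} (J1 : Finset J) {γ γ' : J → F} (h : ∀ k ∈ J1, γ k = γ' k) (v w : Prop) :
    ro J1 γ v w = ro J1 γ' v w := by
  have e : Dg J1 γ = Dg J1 γ' := by
    refine Subtype.ext ?_
    show bf _ = bf _
    congr 1
    funext k l
    by_cases hk : k = l
    · rw [if_pos hk, if_pos hk, h k k.2]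
    · rw [if_neg hk, if_neg hk]
  unfold ro
  rw [e]

/-- **The joint count in a box.** -/
theorem box2 (hEQ : S_EQ) (f g : ℕ → ZMod 2) {ι : Type} [Fintype ι] [LinearOrder ι]
    (J1 : Finset ι) (C : ι → Finset ℕ) (X : ι → ℕ) (κ : ℝ) (hκ : 0 ≤ κ)
    (hCX : ∀ i, (C i).card ≤ X i) (hHB : HB J1 C X κ)
    (hC : ∀ i, ∀ p ∈ C i, p.Prime ∧ p ≠ 2 ∧ (i ∈ J1 ↔ p % 8 = 1))
    (hdis : ∀ i l, i ≠ l → Disjoint (C i) (C l)) (hne : ∃ i, i ∉ J1) (δ : ι → ZMod 2)
    (hδ : ∀ i ∈ J1, ∀ p ∈ C i, f p + g p = δ i) (v w : Prop) :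
    |(((Fintype.piFinset C).filter fun p => GG f g v w (univ.image p)).card : ℝ) -
        ro J1 δ v w * ((Fintype.piFinset C).card : ℝ)| ≤
      4 ^ Fintype.card ι * 2 ^ (prs J1).card * (κ * ∏ j, (X j : ℝ)) := by
  set R : ℝ := 2 ^ (prs J1).card * (κ * ∏ j, (X j : ℝ)) with hR
  have hR0 : 0 ≤ R := mul_nonneg (by positivity)
    (mul_nonneg hκ (Finset.prod_nonneg fun j _ => by positivity))
  -- facts on tuples
  have hinj : ∀ p ∈ Fintype.piFinset C, Function.Injective p := by
    intro p hp i j hij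
    rw [Fintype.mem_piFinset] at hp
    by_contra hne
    have h1 := Finset.disjoint_left.1 (hdis i j hne) (hp i)
    rw [hij] at h1
    exact h1 (hp j)
  have hJ : ∀ p ∈ Fintype.piFinset C, ∀ i, p i % 8 = 1 ↔ i ∈ J1 := by
    intro p hp i
    rw [Fintype.mem_piFinset] at hp
    exact (hC i _ (hp i)).2.2.symm
  have hd : ∀ p ∈ Fintype.piFinset C, ∀ i, p i ∉ (∅ : Finset ℕ) := fun p _ i => Finset.notMem_empty _
  have hpr : ∀ p ∈ Fintype.piFinset C, ∀ i, (p i).Prime ∧ p i ≠ 2 := by
    intro p hp i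
    rw [Fintype.mem_piFinset] at hp
    exact ⟨(hC i _ (hp i)).1, (hC i _ (hp i)).2.1⟩
  -- the part with given labels
  have h1 : ∀ β : ι → ZMod 2 × ZMod 2,
      |(((Fintype.piFinset C).filter fun p => (fun i => (f (p i), g (p i))) = β ∧
          GG f g v w (univ.image p)).card : ℝ) -
        ro J1 δ v w *
          (((Fintype.piFinset C).filter fun p => (fun i => (f (p i), g (p i))) = β).card : ℝ)| ≤
      R := by
    intro β
    by_cases hβ : ∀ i ∈ J1, (β i).1 + (β i).2 = δ i
    · set C' : ι → Finset ℕ := fun i => (C i).filter fun q => (f q, g q) = β i with hC'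
      have hpi : (Fintype.piFinset C).filter (fun p => (fun i => (f (p i), g (p i))) = β) =
          Fintype.piFinset C' := by
        ext p
        simp only [Finset.mem_filter, Fintype.mem_piFinset, hC']
        constructor
        · rintro ⟨h2, h3⟩ i
          exact ⟨h2 i, congrFun h3 i⟩
        · intro h2
          exact ⟨fun i => (h2 i).1, funext fun i => (h2 i).2⟩
      set Q : (prs J1 → ZMod 2) → Prop := fun α =>
        (GdA (univ.filter fun u : (∅ : Finset ℕ) => (u : ℕ) % 8 = 1)
        J1 (fun u v : (∅ : Finset ℕ) => nr u v) (fun (u : (∅ : Finset ℕ)) l => 0)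
        (fun k (u : (∅ : Finset ℕ)) => 0)
        (Pool.Agent.Y703.CQ.ext α) (fun u : (∅ : Finset ℕ) => f u) (fun k => (β k).1) ↔ v) ∧
        (GdA (univ.filter fun u : (∅ : Finset ℕ) => (u : ℕ) % 8 = 1)
        J1 (fun u v : (∅ : Finset ℕ) => nr u v) (fun (u : (∅ : Finset ℕ)) l => 0)
        (fun k (u : (∅ : Finset ℕ)) => 0)
        (Pool.Agent.Y703.CQ.ext α) (fun u : (∅ : Finset ℕ) => g u) (fun k => (β k).2) ↔ w) with hQ
      have h2 : ((univ.filter Q).card : ℝ) / 2 ^ (prs J1).card = ro J1 δ v w := by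
        rw [← ro_congr J1 hβ]
        exact LA2 _ J1 hne _ _ _ _ _ _ _ v w
      have h3 := hEQ ι J1 C' X κ hκ
        (fun i => (Finset.card_le_card (Finset.filter_subset _ _)).trans (hCX i))
        (HB_sub hHB fun i q => (f q, g q) = β i) Q
      have h4 : ((Fintype.piFinset C).filter fun p => (fun i => (f (p i), g (p i))) = β ∧
          GG f g v w (univ.image p)) =
          ((Fintype.piFinset C').filter fun p => Q fun e => nr (p e.1.1) (p e.1.2)) := by
        rw [← hpi, Finset.filter_filter]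
        refine Finset.filter_congr fun p hp => ?_
        refine and_congr_right fun hl => ?_
        have e := Pool.Agent.Y657.CQ.gd_iff f (hinj p hp) (hpr p hp) (hd p hp) (hJ p hp)
        have e' := Pool.Agent.Y657.CQ.gd_iff g (hinj p hp) (hpr p hp) (hd p hp) (hJ p hp)
        rw [Finset.empty_union] at e e'
        unfold GG
        rw [e, e']
        subst hl
        have e1 : (fun (u : (∅ : Finset ℕ)) l => nr u (p l)) = fun _ _ => 0 := by
          funext u
          exact absurd u.2 (Finset.notMem_empty _)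
        have e2 : (fun k (u : (∅ : Finset ℕ)) => nr (p k) u) = fun _ _ => 0 := by
          funext k u
          exact absurd u.2 (Finset.notMem_empty _)
        rw [e1, e2]
      have h5 : (((Fintype.piFinset C').card : ℕ) : ℝ) = ∏ j, ((C' j).card : ℝ) := by
        rw [Fintype.card_piFinset]
        push_cast
        rfl
      rw [h4, hpi, h5, ← h2]
      refine le_trans (le_of_eq ?_) h3
      congr!
    · push Not at hβ
      obtain ⟨i, hi, hne'⟩ := hβ
      have h2 : (Fintype.piFinset C).filter (fun p => (fun i => (f (p i), g (p i))) = β) = ∅ := by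
        rw [Finset.filter_eq_empty_iff]
        intro p hp hl
        rw [Fintype.mem_piFinset] at hp
        apply hne'
        rw [← hl]
        exact hδ i hi _ (hp i)
      have h3 : ((Fintype.piFinset C).filter fun p => (fun i => (f (p i), g (p i))) = β ∧
          GG f g v w (univ.image p)) = ∅ := by
        rw [← Finset.filter_filter, h2, Finset.filter_empty]
      rw [h3, h2, Finset.card_empty, Nat.cast_zero, mul_zero, sub_zero, abs_zero]
      exact hR0
  have hfib : ∀ T : (ι → ℕ) → Prop,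
      (((Fintype.piFinset C).filter fun p => T p).card : ℝ) =
      ∑ β : ι → ZMod 2 × ZMod 2, (((Fintype.piFinset C).filter fun p =>
        (fun i => (f (p i), g (p i))) = β ∧ T p).card : ℝ) := by
    intro T
    rw [Finset.card_eq_sum_card_fiberwise (f := fun (p : ι → ℕ) (i : ι) => (f (p i), g (p i)))
      (t := univ) (fun p _ => Finset.mem_coe.2 (Finset.mem_univ _))]
    push_cast
    refine Finset.sum_congr rfl fun β hβ => ?_
    congr 2
    ext p
    simp only [Finset.mem_filter]
    tauto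
  have hf1 := hfib fun p => GG f g v w (univ.image p)
  have hf2 := hfib fun _ => True
  simp only [and_true, Finset.filter_true] at hf2
  rw [hf1, hf2, Finset.mul_sum, ← Finset.sum_sub_distrib]
  refine (Finset.abs_sum_le_sum_abs _ _).trans ?_
  refine (Finset.sum_le_sum fun β _ => h1 β).trans ?_
  rw [Finset.sum_const, nsmul_eq_mul, Finset.card_univ, Fintype.card_fun, Fintype.card_prod,
    ZMod.card, mul_assoc, hR]
  push_cast
  norm_num

end Pool.Agent.NH3.FK.G
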