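import Pool.Agent.NH3.FK.Joint

/-!
# The joint law for the numbers
-/

set_option autoImplicit false
set_option linter.unusedSectionVars false
set_option linter.unusedVariables false

open scoped Classical

namespace Pool.Agent.NH3.FK.G

open Finset Module
open Pool.Agent.V11291.FK
open Pool.Agent.NH3.FK (Wt)
open Pool.Agent.Y703.CQ (nr sg HB S_SYM S_EQ prs GdA Gd Sp In)
open Pool.Agent.Y219.CQ (F)

/-! ### sets and numbers -/

theorem prod_le_of {ι : Type} [Fintype ι] [LinearOrder ι] {B : ℕ → Prop} {cl : ℕ → ℕ} {τ : ι → ℕ}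
    (hB : ∀ p, B p → p.Prime) {X : ℕ} (hX : ∀ p, B p → p ≤ X) {S : Finset ℕ} (hS : ∀ p ∈ S, B p)
    (hQ : QG cl τ S) : ∏ p ∈ S, p ≤ X ^ Fintype.card ι := by
  obtain ⟨p, hp1, hp2, rfl⟩ := exists_tupleG hS hQ
  rw [Finset.prod_image fun a _ b _ h => hp2 h]
  have h5 : ∏ i, p i ≤ ∏ _i : ι, X := Finset.prod_le_prod' fun i _ => hX _ (hp1 i).1
  rwa [Finset.prod_const, Finset.card_univ] at h5

/-- the sets and the numbers -/
theorem ncard_FW {ι : Type} [Fintype ι] [LinearOrder ι] {B : ℕ → Prop} {cl : ℕ → ℕ} {τ : ι → ℕ}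
    (hB : ∀ p, B p → p.Prime) {X : ℕ} (hX : ∀ p, B p → p ≤ X) (Q : Finset ℕ → Prop) :
    {D : ℕ | Squarefree D ∧ (∀ p ∈ D.primeFactors, B p) ∧ QG cl τ D.primeFactors ∧
      Q D.primeFactors}.ncard = ((FW B cl τ Wt (X ^ Fintype.card ι)).filter Q).card := by
  rw [← Set.ncard_coe_finset]
  refine Set.ncard_congr (fun D _ => D.primeFactors) ?_ ?_ ?_
  · rintro D ⟨h1, h2, h3, h4⟩
    rw [mem_coe, mem_filter, mem_FW hB]
    exact ⟨⟨h2, h3, prod_le_of hB hX h2 h3, trivial⟩, h4⟩
  · rintro D D' ⟨h1, -⟩ ⟨h2, -⟩ e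
    rw [← Nat.prod_primeFactors_of_squarefree h1, ← Nat.prod_primeFactors_of_squarefree h2, e]
  · intro S hS
    rw [mem_coe, mem_filter, mem_FW hB] at hS
    obtain ⟨⟨h2, h3, -, -⟩, h4⟩ := hS
    have hpf : (∏ p ∈ S, p).primeFactors = S := Nat.primeFactors_prod fun p hp => hB p (h2 p hp)
    have hsq : Squarefree (∏ p ∈ S, p) := by
      refine Finset.squarefree_prod_of_pairwise_isCoprime ?_ fun p hp =>
        (hB p (h2 p hp)).prime.squarefree
      intro p hp q hq hpq
      exact Nat.coprime_iff_isRelPrime.1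
        ((Nat.coprime_primes (hB p (h2 p hp)) (hB q (h2 q hq))).2 hpq)
    refine ⟨∏ p ∈ S, p, ⟨hsq, ?_⟩, hpf⟩
    rw [hpf]
    exact ⟨h2, h3, h4⟩

/-! ### the number of the sets with three kinds -/

/-- the number of the elements of a kind -/
def nk (cl : ℕ → ℕ) (r : ℕ) (S : Finset ℕ) : ℕ := (S.filter fun p => cl p = r).card

theorem card3 (cl : ℕ → ℕ) (T : Finset ℕ) {r s t : ℕ} (hrs : r ≠ s) (hrt : r ≠ t) (hst : s ≠ t)
    (hT : ∀ p ∈ T, cl p = r ∨ cl p = s ∨ cl p = t) (a b c : ℕ) :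
    (T.powerset.filter fun S => nk cl r S = a ∧ nk cl s S = b ∧ nk cl t S = c).card =
    (nk cl r T).choose a * ((nk cl s T).choose b * (nk cl t T).choose c) := by
  unfold nk
  rw [← Finset.card_powersetCard, ← Finset.card_powersetCard, ← Finset.card_powersetCard,
    ← Finset.card_product, ← Finset.card_product]
  have hdis : ∀ (r s : ℕ), r ≠ s → ∀ T : Finset ℕ, (∀ p ∈ T, cl p = s) →
      T.filter (fun p => cl p = r) = ∅ := by
    intro r s hrs T hT
    rw [Finset.filter_eq_empty_iff]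
    intro p hp h
    exact hrs (h.symm.trans (hT p hp))
  have hself : ∀ (r : ℕ) (T : Finset ℕ), (∀ p ∈ T, cl p = r) →
      T.filter (fun p => cl p = r) = T := fun r T hT => Finset.filter_true_of_mem hT
  refine Finset.card_nbij' (fun S => (S.filter (fun p => cl p = r),
    (S.filter (fun p => cl p = s), S.filter (fun p => cl p = t))))
    (fun t => t.1 ∪ (t.2.1 ∪ t.2.2)) ?_ ?_ ?_ ?_
  · intro S hS
    rw [mem_coe] at hS ⊢
    rw [mem_filter, mem_powerset] at hS
    obtain ⟨h1, h2, h3, h4⟩ := hS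
    rw [Finset.mem_product, Finset.mem_product]
    refine ⟨?_, ?_, ?_⟩ <;> rw [Finset.mem_powersetCard]
    · exact ⟨Finset.filter_subset_filter _ h1, h2⟩
    · exact ⟨Finset.filter_subset_filter _ h1, h3⟩
    · exact ⟨Finset.filter_subset_filter _ h1, h4⟩
  · rintro ⟨S1, S3, S5⟩ hS
    rw [mem_coe, Finset.mem_product, Finset.mem_product, Finset.mem_powersetCard,
      Finset.mem_powersetCard, Finset.mem_powersetCard] at hS
    obtain ⟨⟨h1, h2⟩, ⟨h3, h4⟩, h5, h6⟩ := hS
    simp only at h1 h2 h3 h4 h5 h6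
    have k1 : ∀ p ∈ S1, cl p = r := fun p hp => (mem_filter.1 (h1 hp)).2
    have k3 : ∀ p ∈ S3, cl p = s := fun p hp => (mem_filter.1 (h3 hp)).2
    have k5 : ∀ p ∈ S5, cl p = t := fun p hp => (mem_filter.1 (h5 hp)).2
    rw [mem_coe, mem_filter, mem_powerset]
    refine ⟨?_, ?_, ?_, ?_⟩
    · exact Finset.union_subset (h1.trans (Finset.filter_subset _ _)) (Finset.union_subset
        (h3.trans (Finset.filter_subset _ _)) (h5.trans (Finset.filter_subset _ _)))
    · simp only [Finset.filter_union]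
      rw [hself r S1 k1, hdis r s hrs S3 k3, hdis r t hrt S5 k5,
        Finset.union_empty, Finset.union_empty]
      exact h2
    · simp only [Finset.filter_union]
      rw [hdis s r hrs.symm S1 k1, hself s S3 k3, hdis s t hst S5 k5,
        Finset.union_empty, Finset.empty_union]
      exact h4
    · simp only [Finset.filter_union]
      rw [hdis t r hrt.symm S1 k1, hdis t s hst.symm S3 k3, hself t S5 k5,
        Finset.empty_union, Finset.empty_union]
      exact h6
  · intro S hS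
    rw [mem_coe, mem_filter, mem_powerset] at hS
    ext p
    simp only [mem_union, mem_filter]
    constructor
    · rintro (h | h | h) <;> exact h.1
    · intro hp
      rcases hT p (hS.1 hp) with h | h | h
      · exact Or.inl ⟨hp, h⟩
      · exact Or.inr (Or.inl ⟨hp, h⟩)
      · exact Or.inr (Or.inr ⟨hp, h⟩)
  · rintro ⟨S1, S3, S5⟩ hS
    rw [mem_coe, Finset.mem_product, Finset.mem_product, Finset.mem_powersetCard,
      Finset.mem_powersetCard, Finset.mem_powersetCard] at hS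
    obtain ⟨⟨h1, h2⟩, ⟨h3, h4⟩, h5, h6⟩ := hS
    simp only at h1 h2 h3 h4 h5 h6
    have k1 : ∀ p ∈ S1, cl p = r := fun p hp => (mem_filter.1 (h1 hp)).2
    have k3 : ∀ p ∈ S3, cl p = s := fun p hp => (mem_filter.1 (h3 hp)).2
    have k5 : ∀ p ∈ S5, cl p = t := fun p hp => (mem_filter.1 (h5 hp)).2
    refine Prod.ext ?_ (Prod.ext ?_ ?_)
    · show (S1 ∪ (S3 ∪ S5)).filter (fun p => cl p = r) = S1
      rw [Finset.filter_union, Finset.filter_union, hself r S1 k1, hdis r s hrs S3 k3,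
        hdis r t hrt S5 k5, Finset.union_empty, Finset.union_empty]
    · show (S1 ∪ (S3 ∪ S5)).filter (fun p => cl p = s) = S3
      rw [Finset.filter_union, Finset.filter_union, hdis s r hrs.symm S1 k1, hself s S3 k3,
        hdis s t hst S5 k5, Finset.union_empty, Finset.empty_union]
    · show (S1 ∪ (S3 ∪ S5)).filter (fun p => cl p = t) = S5
      rw [Finset.filter_union, Finset.filter_union, hdis t r hrt.symm S1 k1,
        hdis t s hst.symm S3 k3, hself t S5 k5, Finset.empty_union, Finset.empty_union]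

/-! ### the kinds -/

/-- the index type -/
abbrev I3 (a b c : ℕ) : Type := Fin a ⊕ (Fin b ⊕ Fin c)

/-- the kinds `0`, `1`, `5` -/
def t3 (a b c : ℕ) : I3 a b c → ℕ := Sum.elim (fun _ => 0) (Sum.elim (fun _ => 1) fun _ => 5)

theorem card_I3 (a b c : ℕ) : Fintype.card (I3 a b c) = a + b + c := by
  simp only [Fintype.card_sum, Fintype.card_fin]
  omega

theorem card_t0 (a b c : ℕ) : (univ.filter fun i => t3 a b c i = 0).card = a := by
  unfold t3
  rw [Finset.card_filter, Fintype.sum_sum_type, Fintype.sum_sum_type]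
  simp

theorem card_t1 (a b c : ℕ) : (univ.filter fun i => t3 a b c i = 1).card = b := by
  unfold t3
  rw [Finset.card_filter, Fintype.sum_sum_type, Fintype.sum_sum_type]
  simp

theorem card_t5 (a b c : ℕ) : (univ.filter fun i => t3 a b c i = 5).card = c := by
  unfold t3
  rw [Finset.card_filter, Fintype.sum_sum_type, Fintype.sum_sum_type]
  simp

theorem t3_mem (a b c : ℕ) (i : I3 a b c) : t3 a b c i = 0 ∨ t3 a b c i = 1 ∨ t3 a b c i = 5 := by
  rcases i with i | i | i
  · exact Or.inl rfl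
  · exact Or.inr (Or.inl rfl)
  · exact Or.inr (Or.inr rfl)

/-- the kind of a prime: `0` or `1` for the split primes, `5` for the inert ones -/
noncomputable def kd (f g : ℕ → ZMod 2) (p : ℕ) : ℕ :=
  if p % 8 = 1 then (if f p + g p = 0 then 0 else 1) else 5

/-- the primes of the class -/
def B5 (p : ℕ) : Prop := Sp p ∨ In {5} p

theorem B5_prime {p : ℕ} (h : B5 p) : p.Prime ∧ p ≠ 2 := by
  rcases h with h | h
  · refine ⟨h.1, ?_⟩
    rintro rfl
    have := h.2.1
    omega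
  · refine ⟨h.1, ?_⟩
    rintro rfl
    have := h.2.2.1
    revert this
    decide

theorem kd_mem (f g : ℕ → ZMod 2) (p : ℕ) : kd f g p = 0 ∨ kd f g p = 1 ∨ kd f g p = 5 := by
  unfold kd
  split_ifs <;> simp

theorem qg_iff {f g : ℕ → ZMod 2} {a b c : ℕ} {S : Finset ℕ} :
    QG (kd f g) (t3 a b c) S ↔ nk (kd f g) 0 S = a ∧ nk (kd f g) 1 S = b ∧ nk (kd f g) 5 S = c := by
  constructor
  · intro h
    have h0 := h 0
    have h1 := h 1
    have h5 := h 5
    rw [card_t0] at h0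
    rw [card_t1] at h1
    rw [card_t5] at h5
    exact ⟨h0, h1, h5⟩
  · rintro ⟨h0, h1, h5⟩ r
    by_cases hr0 : r = 0
    · subst hr0
      rw [card_t0]
      exact h0
    by_cases hr1 : r = 1
    · subst hr1
      rw [card_t1]
      exact h1
    by_cases hr5 : r = 5
    · subst hr5
      rw [card_t5]
      exact h5
    rw [Finset.card_eq_zero.2, Finset.card_eq_zero.2]
    · refine Finset.filter_eq_empty_iff.2 fun i _ h => ?_
      have := t3_mem a b c i
      omega
    · refine Finset.filter_eq_empty_iff.2 fun p hp h => ?_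
      have := kd_mem f g p
      omega

/-- the split indices -/
def J3 (a b c : ℕ) : Finset (I3 a b c) := univ.filter fun i => t3 a b c i ≠ 5

/-- the difference of the labels -/
def d3 (a b c : ℕ) : I3 a b c → F := fun i => if t3 a b c i = 1 then 1 else 0

/-- the law in the boxes -/
theorem boxJ (f g : ℕ → ZMod 2) {a b c : ℕ} [LinearOrder (I3 a b c)] (hc : 0 < c) (v w : Prop) :
    BoxS B5 (kd f g) (t3 a b c) (J3 a b c) (GG f g v w) (ro (J3 a b c) (d3 a b c) v w) := by
  refine ⟨4 ^ Fintype.card (I3 a b c) * 2 ^ (prs (J3 a b c)).card, by positivity, ?_⟩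
  intro C Xf κ hκ hCX hHB hC hdis
  refine box2 Pool.Agent.Y356.CQ.t_EQ f g (J3 a b c) C Xf κ hκ hCX hHB (fun i p hp => ?_) hdis
    ⟨Sum.inr (Sum.inr ⟨0, hc⟩), fun h => ?_⟩ (d3 a b c) (fun i hi p hp => ?_) v w
  · obtain ⟨h1, h2⟩ := hC i p hp
    refine ⟨(B5_prime h1).1, (B5_prime h1).2, ?_⟩
    unfold J3
    rw [mem_filter]
    unfold kd at h2
    constructor
    · rintro ⟨-, h3⟩
      by_contra h4
      rw [if_neg h4] at h2
      exact h3 h2.symm
    · intro h3
      refine ⟨mem_univ _, fun h4 => ?_⟩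
      rw [if_pos h3, h4] at h2
      split_ifs at h2 <;> omega
  · unfold J3 at h
    rw [mem_filter] at h
    exact h.2 rfl
  · obtain ⟨h1, h2⟩ := hC i p hp
    unfold J3 at hi
    rw [mem_filter] at hi
    unfold kd at h2
    unfold d3
    by_cases h3 : p % 8 = 1
    · rw [if_pos h3] at h2
      by_cases h4 : f p + g p = 0
      · rw [if_pos h4] at h2
        rw [if_neg (by omega), h4]
      · rw [if_neg h4] at h2
        rw [if_pos h2.symm]
        have h5 : ∀ x : ZMod 2, x ≠ 0 → x = 1 := by decide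
        exact h5 _ h4
    · rw [if_neg h3] at h2
      exact absurd h2.symm hi.2

/-- the split indices are the elements of the sum of the first two types -/
def eJ (a b c : ℕ) : J3 a b c ≃ Fin a ⊕ Fin b where
  toFun i := match i with
    | ⟨Sum.inl i, _⟩ => Sum.inl i
    | ⟨Sum.inr (Sum.inl i), _⟩ => Sum.inr i
    | ⟨Sum.inr (Sum.inr i), h⟩ => absurd rfl (mem_filter.1 h).2
  invFun i := match i with
    | Sum.inl i => ⟨Sum.inl i, mem_filter.2 ⟨mem_univ _, by show (0 : ℕ) ≠ 5; norm_num⟩⟩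
    | Sum.inr i => ⟨Sum.inr (Sum.inl i), mem_filter.2 ⟨mem_univ _, by show (1 : ℕ) ≠ 5; norm_num⟩⟩
  left_inv i := by
    obtain ⟨i | i | i, h⟩ := i
    · rfl
    · rfl
    · exact absurd rfl (mem_filter.1 h).2
  right_inv i := by
    rcases i with i | i <;> rfl

/-- the fraction of the symmetric matrices `M` for which `M` is nonsingular if and only if `v` and
`M + diag (0, ..., 0, 1, ..., 1)` is nonsingular if and only if `w` -/
noncomputable def frc (a b : ℕ) (v w : Prop) : ℝ :=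
  (Nat.card {M : Matrix (Fin a ⊕ Fin b) (Fin a ⊕ Fin b) (ZMod 2) // M.IsSymm ∧ (M.det ≠ 0 ↔ v) ∧
    ((M + Matrix.diagonal (Sum.elim (fun _ => 0) fun _ => 1)).det ≠ 0 ↔ w)} : ℝ) /
  Nat.card {M : Matrix (Fin a ⊕ Fin b) (Fin a ⊕ Fin b) (ZMod 2) // M.IsSymm}

theorem ro_frc (a b c : ℕ) (v w : Prop) : ro (J3 a b c) (d3 a b c) v w = frc a b v w := by
  rw [ro_mat (J3 a b c) (eJ a b c)]
  have e : (fun k => d3 a b c ((eJ a b c).symm k)) =
      Sum.elim (fun _ => (0 : ZMod 2)) fun _ => (1 : ZMod 2) := by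
    funext k
    rcases k with k | k
    · show (if (0 : ℕ) = 1 then (1 : F) else 0) = 0
      rw [if_neg (by norm_num)]
    · show (if (1 : ℕ) = 1 then (1 : F) else 0) = 1
      rw [if_pos rfl]
  unfold frc
  rw [e]

/-- the family of numbers -/
def FF (f g : ℕ → ZMod 2) (A : Finset ℕ) (a b c : ℕ) (D : ℕ) : Prop :=
  Squarefree D ∧ (∀ p ∈ D.primeFactors, p ∈ A ∧ B5 p) ∧ nk (kd f g) 0 D.primeFactors = a ∧
    nk (kd f g) 1 D.primeFactors = b ∧ nk (kd f g) 5 D.primeFactors = c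

/-- **The joint law for the numbers.** -/
theorem joint_law (f g : ℕ → ZMod 2) {a b c : ℕ} (hc : 0 < c) {ε : ℝ} (hε : 0 ≤ ε) (v w : Prop) :
    ∃ C : ℝ, 0 < C ∧ ∀ (A : Finset ℕ) (X : ℕ), 1 ≤ X → (∀ p ∈ A, p ≤ X) →
      (0 < a → (X : ℝ) ^ (2 / 3 + ε) ≤ (nk (kd f g) 0 (A.filter B5) : ℝ)) →
      (0 < b → (X : ℝ) ^ (2 / 3 + ε) ≤ (nk (kd f g) 1 (A.filter B5) : ℝ)) →
      (X : ℝ) ^ (2 / 3 + ε) ≤ (nk (kd f g) 5 (A.filter B5) : ℝ) →
      |({D : ℕ | FF f g A a b c D ∧ GG f g v w D.primeFactors}.ncard : ℝ) -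
        frc a b v w * ({D : ℕ | FF f g A a b c D}.ncard : ℝ)| ≤
      C * (X : ℝ) ^ (-(ε / 2)) * ({D : ℕ | FF f g A a b c D}.ncard : ℝ) := by
  let _ : LinearOrder (I3 a b c) := LinearOrder.lift' (Fintype.equivFin (I3 a b c))
    (Fintype.equivFin (I3 a b c)).injective
  obtain ⟨C, hC, h⟩ := set_sparse (ro_nonneg _ _ v w) (ro_le_one _ _ v w)
    (fun p hp => B5_prime hp) (boxJ f g (a := a) (b := b) hc v w) (by
      rw [card_I3]
      omega) hε
  refine ⟨C, hC, fun A X hX hA ha hb hc' => ?_⟩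
  have hk : ∀ i, (X : ℝ) ^ (2 / 3 + ε) ≤
      ((A.filter fun q => B5 q ∧ kd f g q = t3 a b c i).card : ℝ) := by
    intro i
    have e : ∀ r, nk (kd f g) r (A.filter B5) = (A.filter fun q => B5 q ∧ kd f g q = r).card := by
      intro r
      unfold nk
      rw [Finset.filter_filter]
    rcases i with i | i | i
    · have := ha i.pos
      rw [e] at this
      exact this
    · have := hb i.pos
      rw [e] at this
      exact this
    · rw [e] at hc'
      exact hc'
  have h1 := h A X hX hA hk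
  have hB : ∀ p, p ∈ A ∧ B5 p → p.Prime := fun p hp => (B5_prime hp.2).1
  have hX' : ∀ p, p ∈ A ∧ B5 p → p ≤ X := fun p hp => hA p hp.1
  have e1 := ncard_FW (cl := kd f g) (τ := t3 a b c) hB hX' (GG f g v w)
  have e2 := ncard_FW (cl := kd f g) (τ := t3 a b c) hB hX' fun _ => True
  rw [Finset.filter_true] at e2
  rw [← e1, ← e2, ro_frc] at h1
  have k1 : {D : ℕ | Squarefree D ∧ (∀ p ∈ D.primeFactors, p ∈ A ∧ B5 p) ∧
      QG (kd f g) (t3 a b c) D.primeFactors ∧ GG f g v w D.primeFactors} =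
      {D : ℕ | FF f g A a b c D ∧ GG f g v w D.primeFactors} := by
    ext D
    show (_ ∧ _ ∧ _ ∧ _) ↔ (FF f g A a b c D ∧ _)
    unfold FF
    rw [qg_iff]
    tauto
  have k2 : {D : ℕ | Squarefree D ∧ (∀ p ∈ D.primeFactors, p ∈ A ∧ B5 p) ∧
      QG (kd f g) (t3 a b c) D.primeFactors ∧ True} = {D : ℕ | FF f g A a b c D} := by
    ext D
    show (_ ∧ _ ∧ _ ∧ _) ↔ FF f g A a b c D
    unfold FF
    rw [qg_iff]
    tauto
  rw [k1, k2] at h1
  exact h1

/-- the size of the family -/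
theorem card_FF (f g : ℕ → ZMod 2) (A : Finset ℕ) (a b c : ℕ) :
    {D : ℕ | FF f g A a b c D}.ncard = (nk (kd f g) 0 (A.filter B5)).choose a *
      ((nk (kd f g) 1 (A.filter B5)).choose b * (nk (kd f g) 5 (A.filter B5)).choose c) := by
  rw [← card3 (kd f g) (A.filter B5) (by norm_num : (0 : ℕ) ≠ 1) (by norm_num : (0 : ℕ) ≠ 5)
    (by norm_num : (1 : ℕ) ≠ 5) (fun p _ => kd_mem f g p), ← Set.ncard_coe_finset]
  refine Set.ncard_congr (fun D _ => D.primeFactors) ?_ ?_ ?_
  · rintro D ⟨h1, h2, h3⟩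
    rw [mem_coe, mem_filter, mem_powerset]
    exact ⟨fun p hp => mem_filter.2 (h2 p hp), h3⟩
  · rintro D D' ⟨h1, -⟩ ⟨h2, -⟩ e
    rw [← Nat.prod_primeFactors_of_squarefree h1, ← Nat.prod_primeFactors_of_squarefree h2, e]
  · intro S hS
    rw [mem_coe, mem_filter, mem_powerset] at hS
    obtain ⟨h2, h3⟩ := hS
    have hB : ∀ p ∈ S, p.Prime := fun p hp => (B5_prime (mem_filter.1 (h2 hp)).2).1
    have hpf : (∏ p ∈ S, p).primeFactors = S := Nat.primeFactors_prod hB
    have hsq : Squarefree (∏ p ∈ S, p) := by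
      refine Finset.squarefree_prod_of_pairwise_isCoprime ?_ fun p hp => (hB p hp).prime.squarefree
      intro p hp q hq hpq
      exact Nat.coprime_iff_isRelPrime.1 ((Nat.coprime_primes (hB p hp) (hB q hq)).2 hpq)
    refine ⟨∏ p ∈ S, p, ⟨hsq, ?_, ?_⟩, hpf⟩
    · rw [hpf]
      exact fun p hp => mem_filter.1 (h2 hp)
    · rw [hpf]
      exact h3

end Pool.Agent.NH3.FK.G
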