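import Pool.Agent.V11291.FK.Gen
import Pool.Agent.Y703.CQ.Fin

/-!
# A fixed number of primes from an arbitrary set: the quadratic case, the law for the sets
-/

set_option autoImplicit false
set_option linter.unusedSectionVars false
set_option linter.unusedVariables false

open scoped Classical

namespace Pool.Agent.NH3.FK

open Finset Filter Topology
open Pool.Agent.V11291.FK
open Pool.Agent.Y703.CX (sm la jj XX)
open Pool.Agent.Y703.CQ (Gd SS Cl Sp In Ok)
open Pool.Agent.Y219.CQ (sp)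

/-- the primes of the class with the property `A` -/
def Bq (A : ℕ → Prop) (p : ℕ) : Prop := A p ∧ (Sp p ∨ In {3, 5} p)

theorem bq_prime {A : ℕ → Prop} : ∀ p, Bq A p → p.Prime :=
  fun _ h => h.2.elim (fun k => k.1) fun k => k.1

/-- no further condition -/
def Wt (_ : Finset ℕ) : Prop := True

section law

variable {ι : Type} [Fintype ι] [LinearOrder ι]

theorem tw_eq {A : ℕ → Prop} {τ : ι → ℕ} (X : ℕ) :
    TW (Bq A) (fun p => p % 8) τ Wt X = Tup (PG (Bq A) (fun p => p % 8) τ) X := by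
  unfold TW
  ext p
  rw [Finset.mem_filter]
  exact ⟨fun h => h.1, fun h => ⟨h, trivial⟩⟩

/-- the hypothesis on the boxes holds -/
theorem boxQ (A : ℕ → Prop) (f : ℕ → ZMod 2) {τ : ι → ℕ} (hne : ∃ i, τ i ≠ 1) :
    BoxH (TW (Bq A) (fun p => p % 8) τ Wt) (fun p => Gd f (univ.image p))
      (sp (univ.filter fun i => τ i = 1).card) := by
  set J1 : Finset ι := univ.filter fun i => τ i = 1 with hJ1
  have hne' : ∃ i, i ∉ J1 := by
    obtain ⟨i, hi⟩ := hne
    exact ⟨i, fun h => hi (Finset.mem_filter.1 h).2⟩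
  obtain ⟨C, hC, hbox⟩ := sum_boxes Pool.Agent.Y839.CQ.t_SYM Pool.Agent.Y356.CQ.t_EQ
    Pool.Agent.Y710.CQ.t_BIL J1 hne'
  refine ⟨2 ^ (Fintype.card ι + Fintype.card ι ^ 2), C, by positivity, hC, ?_⟩
  intro X z H N κ hH hz hκ hκz hN
  rw [tw_eq]
  refine hbox (PG (Bq A) (fun p => p % 8) τ) f X z H N κ (fun i p h => ?_) hH hz hκ hκz hN
  have h1 := bq_prime p h.1
  have h2 : p % 8 = τ i := h.2
  refine ⟨h1, ?_, ?_⟩
  · rintro rfl
    rcases h.1.2 with h3 | h3
    · have := h3.2.1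
      omega
    · have := h3.2.2.1
      revert this
      decide
  · rw [hJ1, Finset.mem_filter]
    constructor
    · rintro ⟨-, h3⟩
      omega
    · intro h3
      exact ⟨mem_univ _, by omega⟩

theorem cl_ofQ {A : ℕ → Prop} {τ : ι → ℕ} (h5 : Even (univ.filter fun i => τ i = 5).card)
    {p : ι → ℕ} (h : ∀ i, PG (Bq A) (fun p => p % 8) τ i (p i)) (hinj : Function.Injective p) :
    Cl {3, 5} {0, 1} (univ.image p) := by
  refine ⟨fun q hq => ?_, ?_, ?_⟩
  · rw [mem_image] at hq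
    obtain ⟨i, -, rfl⟩ := hq
    exact (h i).1.2
  · have h1 := qg_of h hinj 5
    rw [h1]
    exact Nat.even_iff.1 h5
  · rw [Finset.mem_insert, Finset.mem_singleton]
    omega

theorem ok35 : Ok {3, 5} {0, 1} := ⟨Or.inr rfl, Or.inl (by decide)⟩

/-- the hypothesis on the exceptional tuples holds -/
theorem excQ (A : ℕ → Prop) {τ : ι → ℕ} (h5 : Even (univ.filter fun i => τ i = 5).card) {j : ℕ}
    (hj : Fintype.card ι = j + 1) : ExcH (TW (Bq A) (fun p => p % 8) τ Wt) j := by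
  refine exc_abs hj (SS {3, 5} {0, 1}) (fun X p hp => ?_)
    (fun X z H hX hH => Pool.Agent.Y391.CQ.t_CNT.cut _ _ X z H _ ok35 hX hH)
    (fun X z H hX hH => Pool.Agent.Y391.CQ.t_CNT.coll _ _ X z H ok35 hX hH)
  rw [mem_TW bq_prime] at hp
  obtain ⟨⟨h3, h4, h6⟩, -⟩ := hp
  refine ⟨fun i => bq_prime _ (h3 i).1, h4, h6, ?_⟩
  have hprod : ∏ q ∈ univ.image p, q = ∏ i, p i :=
    Finset.prod_image fun a _ b _ h => h4 h
  unfold SS
  rw [mem_filter, mem_powerset]
  refine ⟨fun q hq => ?_, cl_ofQ h5 h3 h4, by rw [hprod]; exact h6⟩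
  rw [mem_range]
  have h7 : q ≤ ∏ r ∈ univ.image p, r := Nat.le_of_dvd
    (Finset.prod_pos fun r hr => by
      rw [mem_image] at hr
      obtain ⟨i, -, rfl⟩ := hr
      exact (bq_prime _ (h3 i).1).pos) (Finset.dvd_prod_of_mem _ hq)
  rw [hprod] at h7
  omega

/-- the hypothesis on the size holds -/
theorem lowQ {A : ℕ → Prop} {τ : ι → ℕ} (i₀ : ι)
    (hD : ∀ i, Dn (PG (Bq A) (fun p => p % 8) τ i)) :
    LowH (TW (Bq A) (fun p => p % 8) τ Wt) := by
  obtain ⟨c, X₀, hc, h⟩ := low (P := PG (Bq A) (fun p => p % 8) τ)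
    (fun i p h => bq_prime _ h.1) hD i₀
  refine ⟨c, X₀, hc, fun X hX => ?_⟩
  rw [tw_eq]
  exact h X hX

theorem sp_nonneg (m : ℕ) : 0 ≤ sp m := by
  unfold sp
  refine Finset.prod_nonneg fun i _ => ?_
  have : (1 / 2 : ℝ) ^ (2 * i + 1) ≤ 1 := pow_le_one₀ (by norm_num) (by norm_num)
  linarith

theorem sp_le_one (m : ℕ) : sp m ≤ 1 := by
  unfold sp
  refine Finset.prod_le_one (fun i _ => ?_) fun i _ => ?_
  · have : (1 / 2 : ℝ) ^ (2 * i + 1) ≤ 1 := pow_le_one₀ (by norm_num) (by norm_num)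
    linarith
  · have : (0 : ℝ) ≤ (1 / 2 : ℝ) ^ (2 * i + 1) := by positivity
    linarith

/-- **The law for the sets.** -/
theorem set_lawQ {A : ℕ → Prop} (f : ℕ → ZMod 2) {τ : ι → ℕ}
    (h5 : Even (univ.filter fun i => τ i = 5).card) (h1 : ∃ i, τ i = 1) (hne : ∃ i, τ i ≠ 1)
    (hD : ∀ i, Dn (PG (Bq A) (fun p => p % 8) τ i)) :
    Tendsto (fun X : ℕ => (((FW (Bq A) (fun p => p % 8) τ Wt X).filter (Gd f)).card : ℝ) /
      ((FW (Bq A) (fun p => p % 8) τ Wt X).card : ℝ)) atTop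
      (𝓝 (sp (univ.filter fun i => τ i = 1).card)) := by
  obtain ⟨i₁, hi₁⟩ := h1
  obtain ⟨i₂, hi₂⟩ := hne
  have hne : i₁ ≠ i₂ := by
    rintro rfl
    exact hi₂ hi₁
  have hc : 2 ≤ Fintype.card ι := Fintype.one_lt_card_iff.2 ⟨i₁, i₂, hne⟩
  obtain ⟨j, hj⟩ : ∃ j, Fintype.card ι = j + 2 := ⟨Fintype.card ι - 2, by omega⟩
  exact set_lawG bq_prime Wt hj (sp_nonneg _) (sp_le_one _) (boxQ A f ⟨i₂, hi₂⟩)
    (excQ A h5 (by omega)) (lowQ i₁ hD)

end law

/-! ### the numbers -/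

/-- the number of the elements of `S` which are `r` modulo `8` -/
def nm (r : ℕ) (S : Finset ℕ) : ℕ := (S.filter fun p => p % 8 = r).card

/-- the index type -/
abbrev Ix (a b c : ℕ) : Type := Fin a ⊕ (Fin b ⊕ Fin c)

/-- the residues modulo `8` -/
def ty (a b c : ℕ) : Ix a b c → ℕ := Sum.elim (fun _ => 1) (Sum.elim (fun _ => 3) fun _ => 5)

theorem card_Ix (a b c : ℕ) : Fintype.card (Ix a b c) = a + b + c := by
  simp only [Fintype.card_sum, Fintype.card_fin]
  omega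

theorem card_ty1 (a b c : ℕ) : (univ.filter fun i => ty a b c i = 1).card = a := by
  unfold ty
  rw [Finset.card_filter, Fintype.sum_sum_type, Fintype.sum_sum_type]
  simp

theorem card_ty3 (a b c : ℕ) : (univ.filter fun i => ty a b c i = 3).card = b := by
  unfold ty
  rw [Finset.card_filter, Fintype.sum_sum_type, Fintype.sum_sum_type]
  simp

theorem card_ty5 (a b c : ℕ) : (univ.filter fun i => ty a b c i = 5).card = c := by
  unfold ty
  rw [Finset.card_filter, Fintype.sum_sum_type, Fintype.sum_sum_type]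
  simp

theorem ty_mem (a b c : ℕ) (i : Ix a b c) :
    ty a b c i = 1 ∨ ty a b c i = 3 ∨ ty a b c i = 5 := by
  rcases i with i | i | i
  · exact Or.inl rfl
  · exact Or.inr (Or.inl rfl)
  · exact Or.inr (Or.inr rfl)

/-- the condition on the primes of the set -/
def Cn (A : ℕ → Prop) (a b c : ℕ) (S : Finset ℕ) : Prop :=
  (∀ p ∈ S, A p) ∧ nm 1 S = a ∧ nm 3 S = b ∧ nm 5 S = c

theorem cl_mod {p : ℕ} (h : Sp p ∨ In {3, 5} p) : p % 8 = 1 ∨ p % 8 = 3 ∨ p % 8 = 5 := by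
  rcases h with h | h
  · exact Or.inl h.2.1
  · have := h.2.2.1
    rw [Finset.mem_insert, Finset.mem_singleton] at this
    exact Or.inr this

/-- the conditions on the sets of primes -/
theorem fw_iffQ {A : ℕ → Prop} {a b c X : ℕ} [LinearOrder (Ix a b c)] (hc : Even c)
    {S : Finset ℕ} :
    S ∈ FW (Bq A) (fun p => p % 8) (ty a b c) Wt X ↔ S ∈ (SS {3, 5} {0, 1} X).filter (Cn A a b c) := by
  rw [mem_FW bq_prime, mem_filter]
  unfold SS
  rw [mem_filter, mem_powerset]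
  constructor
  · rintro ⟨a1, a2, a3, -⟩
    have b1 := a2 1
    have b3 := a2 3
    have b5 := a2 5
    rw [card_ty1] at b1
    rw [card_ty3] at b3
    rw [card_ty5] at b5
    refine ⟨⟨fun q hq => ?_, ⟨fun p hp => (a1 p hp).2, ?_, ?_⟩, a3⟩,
      fun p hp => (a1 p hp).1, b1, b3, b5⟩
    · rw [mem_range]
      have h5 : q ≤ ∏ r ∈ S, r := Nat.le_of_dvd
        (Finset.prod_pos fun r hr => (bq_prime r (a1 r hr)).pos) (Finset.dvd_prod_of_mem _ hq)
      omega
    · simp only at b5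
      rw [b5]
      exact Nat.even_iff.1 hc
    · rw [Finset.mem_insert, Finset.mem_singleton]
      omega
  · rintro ⟨⟨b1, ⟨b2, b3, b4⟩, b6⟩, b7, c1, c3, c5⟩
    refine ⟨fun p hp => ⟨b7 p hp, b2 p hp⟩, fun r => ?_, b6, trivial⟩
    by_cases hr1 : r = 1
    · subst hr1
      rw [card_ty1]
      exact c1
    by_cases hr3 : r = 3
    · subst hr3
      rw [card_ty3]
      exact c3
    by_cases hr5 : r = 5
    · subst hr5
      rw [card_ty5]
      exact c5
    rw [Finset.card_eq_zero.2, Finset.card_eq_zero.2]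
    · refine Finset.filter_eq_empty_iff.2 fun i _ h => ?_
      have := ty_mem a b c i
      omega
    · refine Finset.filter_eq_empty_iff.2 fun p hp h => ?_
      have := cl_mod (b2 p hp)
      simp only at h
      omega

/-- the condition on the set of primes: each kind which is used contains a positive proportion of
all primes -/
def Rch (A : ℕ → Prop) (a b c : ℕ) : Prop :=
  (0 < a → Dn fun p => A p ∧ Sp p) ∧
  (0 < b → Dn fun p => A p ∧ In {3, 5} p ∧ p % 8 = 3) ∧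
  (0 < c → Dn fun p => A p ∧ In {3, 5} p ∧ p % 8 = 5)

theorem dn_mono {P Q : ℕ → Prop} (h : ∀ p, P p → Q p) (hP : Dn P) : Dn Q := by
  obtain ⟨δ, Y₀, hδ, h1⟩ := hP
  refine ⟨δ, Y₀, hδ, fun Y hY => (h1 Y hY).trans ?_⟩
  exact_mod_cast Finset.card_le_card (Finset.monotone_filter_right _ fun p _ hp => h p hp)

theorem rch_data {A : ℕ → Prop} {a b c : ℕ} (h : Rch A a b c) (i : Ix a b c) :
    Dn (PG (Bq A) (fun p => p % 8) (ty a b c) i) := by
  obtain ⟨h1, h3, h5⟩ := h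
  rcases i with i | i | i
  · refine dn_mono (fun p hp => ?_) (h1 i.pos)
    exact ⟨⟨hp.1, Or.inl hp.2⟩, hp.2.2.1⟩
  · refine dn_mono (fun p hp => ?_) (h3 i.pos)
    exact ⟨⟨hp.1, Or.inr hp.2.1⟩, hp.2.2⟩
  · refine dn_mono (fun p hp => ?_) (h5 i.pos)
    exact ⟨⟨hp.1, Or.inr hp.2.1⟩, hp.2.2⟩

/-- **the law for the sets of the class** -/
theorem law_Cn {A : ℕ → Prop} (f : ℕ → ZMod 2) {a b c : ℕ} (hc : Even c) (hbc : 0 < b + c)
    (hR : Rch A a b c) :
    Tendsto (fun X : ℕ => (((SS {3, 5} {0, 1} X).filter fun S => Cn A a b c S ∧ Gd f S).card : ℝ) /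
      (((SS {3, 5} {0, 1} X).filter (Cn A a b c)).card : ℝ)) atTop (𝓝 (sp a)) := by
  let _ : LinearOrder (Ix a b c) := LinearOrder.lift' (Fintype.equivFin (Ix a b c))
    (Fintype.equivFin (Ix a b c)).injective
  have hFW : ∀ X, (SS {3, 5} {0, 1} X).filter (Cn A a b c) =
      FW (Bq A) (fun p => p % 8) (ty a b c) Wt X := fun X => Finset.ext fun S => (fw_iffQ hc).symm
  have hFG : ∀ X, ((SS {3, 5} {0, 1} X).filter fun S => Cn A a b c S ∧ Gd f S) =
      (FW (Bq A) (fun p => p % 8) (ty a b c) Wt X).filter (Gd f) := by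
    intro X
    rw [← hFW, Finset.filter_filter]
  simp only [hFW, hFG]
  have hi2 : ∃ i, ty a b c i ≠ 1 := by
    rcases Nat.eq_zero_or_pos b with hb | hb
    · refine ⟨Sum.inr (Sum.inr ⟨0, by omega⟩), ?_⟩
      show (5 : ℕ) ≠ 1
      norm_num
    · refine ⟨Sum.inr (Sum.inl ⟨0, hb⟩), ?_⟩
      show (3 : ℕ) ≠ 1
      norm_num
  rcases Nat.eq_zero_or_pos a with ha | ha
  · subst ha
    obtain ⟨i₂, hi₂⟩ := hi2
    obtain ⟨c₀, X₀, hc₀, hlow⟩ := FW_low (W := Wt) (bq_prime (A := A)) i₂ (lowQ i₂ (rch_data hR))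
    have hs : sp 0 = 1 := by
      unfold sp
      simp
    rw [hs]
    refine tendsto_const_nhds.congr' ?_
    have t3 : Tendsto (fun X : ℕ => Real.log (Real.log (X : ℝ))) atTop atTop :=
      Real.tendsto_log_atTop.comp (Real.tendsto_log_atTop.comp tendsto_natCast_atTop_atTop)
    filter_upwards [eventually_ge_atTop X₀, eventually_ge_atTop 3, t3.eventually_ge_atTop 1]
      with X hX hX3 hll
    have hX1 : (1 : ℝ) < X := by exact_mod_cast (by omega : 1 < X)
    have hl : 0 < Real.log X := Real.log_pos hX1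
    have h4 := hlow X hX
    have h6 : (0 : ℝ) < ((FW (Bq A) (fun p => p % 8) (ty 0 b c) Wt X).card : ℝ) := by
      refine lt_of_lt_of_le ?_ h4
      have : 0 < Real.log (Real.log X) := by linarith
      positivity
    have h7 : (FW (Bq A) (fun p => p % 8) (ty 0 b c) Wt X).filter (Gd f) =
        FW (Bq A) (fun p => p % 8) (ty 0 b c) Wt X := by
      refine Finset.filter_true_of_mem fun S hS => ?_
      rw [fw_iffQ hc, mem_filter] at hS
      have h8 : nm 1 S = 0 := hS.2.2.1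
      unfold nm at h8
      rw [Finset.card_eq_zero, Finset.filter_eq_empty_iff] at h8
      intro x _ p hp hp1
      exact absurd hp1 (h8 hp)
    rw [h7, div_self h6.ne']
  · have h := set_lawQ (A := A) f (τ := ty a b c) (by rw [card_ty5]; exact hc)
      ⟨Sum.inl ⟨0, ha⟩, rfl⟩ hi2 (rch_data hR)
    rw [card_ty1] at h
    exact h

/-- the size of the class -/
theorem size_Cn {A : ℕ → Prop} {a b c : ℕ} (hc : Even c) (hbc : 0 < b + c)
    (hR : Rch A a b c) :
    ∃ (c₁ c₂ : ℝ) (X₀ : ℕ), 0 < c₁ ∧ 0 < c₂ ∧ ∀ X : ℕ, X₀ ≤ X →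
      c₁ * (X * Real.log (Real.log X) ^ (a + b + c - 1) / Real.log X) ≤
        (((SS {3, 5} {0, 1} X).filter (Cn A a b c)).card : ℝ) ∧
      (((SS {3, 5} {0, 1} X).filter (Cn A a b c)).card : ℝ) ≤
        c₂ * (X * Real.log (Real.log X) ^ (a + b + c - 1) / Real.log X) := by
  let _ : LinearOrder (Ix a b c) := LinearOrder.lift' (Fintype.equivFin (Ix a b c))
    (Fintype.equivFin (Ix a b c)).injective
  have hFW : ∀ X, (SS {3, 5} {0, 1} X).filter (Cn A a b c) =
      FW (Bq A) (fun p => p % 8) (ty a b c) Wt X := fun X => Finset.ext fun S => (fw_iffQ hc).symm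
  simp only [hFW]
  obtain ⟨i₂, -⟩ : ∃ i, ty a b c i ≠ 1 := by
    rcases Nat.eq_zero_or_pos b with hb | hb
    · refine ⟨Sum.inr (Sum.inr ⟨0, by omega⟩), ?_⟩
      show (5 : ℕ) ≠ 1
      norm_num
    · refine ⟨Sum.inr (Sum.inl ⟨0, hb⟩), ?_⟩
      show (3 : ℕ) ≠ 1
      norm_num
  obtain ⟨c₁, X₀, hc₁, hlow⟩ := FW_low (W := Wt) (bq_prime (A := A)) i₂ (lowQ i₂ (rch_data hR))
  obtain ⟨j, hj⟩ : ∃ j, a + b + c = j + 1 := ⟨a + b + c - 1, by omega⟩
  obtain ⟨C, X₁, hC, hup⟩ := FW_up (B := Bq A) (cl := fun p => p % 8) (τ := ty a b c) bq_prime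
    (j := j) ((card_Ix a b c).trans hj) Wt
  refine ⟨c₁, C, max X₀ X₁, hc₁, hC, fun X hX => ?_⟩
  have h6 := hlow X ((le_max_left _ _).trans hX)
  rw [card_Ix] at h6
  have e : a + b + c - 1 = j := by omega
  rw [e] at h6 ⊢
  exact ⟨h6, hup X ((le_max_right _ _).trans hX)⟩

end Pool.Agent.NH3.FK
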