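import Pool.Agent.Y17.X.SelInf
import Pool.Agent.R413.SJ.ShaQ
import Pool.Agent.R413.SQ.Cor
import Pool.Agent.Y687.JQ.Sha

/-!
# The `2 ^ ∞`-Selmer groups of the twists of `X_0(49)` and of `X_0(14)`

`E_D : y² = x³ - 35 D² x - 98 D³`: the `2 ^ ∞`-Selmer group is zero if and only if `E_D(ℚ)` is finite and
`Ш(E_D)[2] = 0` (the lemmas of `Pool/Agent/Y17/X/SelInf` for `X_0(14)`, adapted to `X_0(49)`).
-/

set_option autoImplicit false

namespace Pool.Agent.NH3.FK.Sel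

open WeierstrassCurve Pool.Agent.Y17.X.SI Pool.Agent.TH841.SH.D
open Pool.Agent.TH841.SH (IsR)


/-- the curve `y² = x³ - 35 D² x - 98 D³` -/
lemma isR_cm {L : Type} [Field L] [Algebra ℚ L] [CharZero L] {D : ℤ} (hD : D ≠ 0) {r : L}
    (hr : r ^ 2 = -7) :
    ∃ a b c : L, IsR ((Pool.Agent.Z702.sh (-35 * D ^ 2) (-98 * D ^ 3)).baseChange L) a b c ∧
      a ≠ b ∧ a ≠ c ∧ b ≠ c := by
  have hD0 : (D : L) ≠ 0 := by exact_mod_cast hD
  have hr0 : r ≠ 0 := by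
    rintro rfl
    norm_num at hr
  have hb : ∀ z : ℤ, algebraMap ℚ L ((z : ℤ) : ℚ) = (z : L) := fun z => map_intCast _ z
  refine ⟨7 * D, D * (-7 + r) / 2, D * (-7 - r) / 2, ⟨?_, ?_, ?_, ?_, ?_⟩, ?_, ?_, ?_⟩
  · exact map_zero _
  · refine (map_zero (algebraMap ℚ L)).trans ?_
    ring
  · exact map_zero _
  · refine (hb _).trans ?_
    push_cast
    linear_combination (1 / 4 * (D : L) ^ 2) * hr
  · refine (hb _).trans ?_
    push_cast
    linear_combination (-7 / 4 * (D : L) ^ 3) * hr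
  · intro h
    have h1 : (D : L) * (21 - r) = 0 := by linear_combination 2 * h
    have h2 := (mul_eq_zero.1 h1).resolve_left hD0
    have h3 : r ^ 2 = 21 ^ 2 := by
      rw [← sub_eq_zero.1 h2]
    rw [hr] at h3
    norm_num at h3
  · intro h
    have h1 : (D : L) * (21 + r) = 0 := by linear_combination 2 * h
    have h2 := (mul_eq_zero.1 h1).resolve_left hD0
    have h3 : r ^ 2 = 21 ^ 2 := by
      rw [← neg_eq_iff_add_eq_zero.2 h2]
      ring
    rw [hr] at h3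
    norm_num at h3
  · intro h
    have h1 : (D : L) * r = 0 := by linear_combination h
    rcases mul_eq_zero.1 h1 with h2 | h2
    · exact hD0 h2
    · exact hr0 h2

lemma fg_cm {D : ℤ} (hD : D ≠ 0) :
    AddGroup.FG (Pool.Agent.Z702.sh (-35 * D ^ 2) (-98 * D ^ 3)).toAffine.Point := by
  have hF : Fact (∀ r : ℚ, r ^ 2 ≠ (-7) + 0 * r) :=
    ⟨fun r hr => by nlinarith [sq_nonneg r]⟩
  have hnf : NumberField (QuadraticAlgebra ℚ (-7) 0) :=
    { to_charZero := inferInstance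
      to_finiteDimensional := inferInstance }
  have hω : (⟨0, 1⟩ : QuadraticAlgebra ℚ (-7) 0) ^ 2 = -7 := by
    have e : (-7 : QuadraticAlgebra ℚ (-7) 0) = algebraMap ℚ (QuadraticAlgebra ℚ (-7) 0) (-7) := by
      rw [map_neg, map_ofNat]
    rw [e, Pool.Agent.Y668.quad_map, pow_two, QuadraticAlgebra.mk_mul_mk]
    congr 1 <;> ring
  obtain ⟨a, b, c, h, h1, h2, h3⟩ := isR_cm (L := QuadraticAlgebra ℚ (-7) 0) hD hω
  exact fg_of_three h h1 h2 h3

/-- the criterion for the twists of `X_0(49)` -/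
theorem selInf_cm {D : ℤ} (hD : D ≠ 0) :
    (∀ x : SelInf (Pool.Agent.Z702.sh (-35 * D ^ 2) (-98 * D ^ 3)), x = 0) ↔
      Finite (Pool.Agent.Z702.sh (-35 * D ^ 2) (-98 * D ^ 3)).toAffine.Point ∧
      ∀ x : Sha (Pool.Agent.Z702.sh (-35 * D ^ 2) (-98 * D ^ 3)), x + x = 0 → x = 0 := by
  obtain ⟨r, hr⟩ := IsAlgClosed.exists_pow_nat_eq (-7 : AlgebraicClosure ℚ) (n := 2) (by norm_num)
  obtain ⟨a, b, c, h, h1, h2, h3⟩ := isR_cm hD hr
  exact selInf_iff h h1 h2 h3 (fg_cm hD)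

/-- the sequence is zero if and only if its middle term is -/
theorem zeroSeq_cm {D : ℤ} (hD : D ≠ 0) :
    ZeroSeq (Pool.Agent.Z702.sh (-35 * D ^ 2) (-98 * D ^ 3)) ↔
      ∀ x : SelInf (Pool.Agent.Z702.sh (-35 * D ^ 2) (-98 * D ^ 3)), x = 0 := by
  refine ⟨fun h => h.2.1, fun h => ?_⟩
  obtain ⟨h1, h2⟩ := (selInf_cm hD).1 h
  exact ⟨tensor_div_zero pruf_div, h, pow_of_two h2⟩

end Pool.Agent.NH3.FK.Sel
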